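import Pool.Agent.H883LP.Stmts

set_option autoImplicit false

/-!
# Task Divs: straight-line code followed by divisions
-/

namespace Pool.Agent.H883LP

open Pool.Agent.H558R2 Matrix

theorem operand_divs {κ : Type} {G : List (Fn κ)} {f : Fn κ} (h : Av G f) :
    ∃ u : Operand κ, ∀ (x : κ → ℝ) (acc : List ℝ),
      u.value x (G.map (fun g => g x) ++ acc) = some (f x) := by
  rcases h with ⟨k, rfl⟩ | rfl | rfl | h
  · exact ⟨.input k, fun x acc => rfl⟩
  · exact ⟨.zero, fun x acc => rfl⟩
  · exact ⟨.one, fun x acc => rfl⟩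
  · obtain ⟨j, hj, hj'⟩ := List.mem_iff_getElem.1 h
    refine ⟨.result j, fun x acc => ?_⟩
    simp only [Operand.value]
    rw [List.getElem?_append_left (by rw [List.length_map]; exact hj)]
    simp [List.getElem?_map, List.getElem?_eq_getElem hj, hj']

theorem chain_divs {κ : Type} (G : List (Fn κ)) (g : Fn κ) (hg : Av G g) (ans : Bool) :
    ∀ fs : List (Fn κ), (∀ f ∈ fs, Av G f) → ∃ T : CompTree κ, ∀ (x : κ → ℝ) (acc : List ℝ),
      g x ≠ 0 → T.run x (G.map (fun g => g x) ++ acc) =
        some (ans, G.map (fun g => g x) ++ acc ++ fs.map (fun f => f x / g x), fs.length)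
  | [], _ => ⟨.answer ans, fun x acc _ => by simp [CompTree.run]⟩
  | f :: fs, h => by
    obtain ⟨T, hT⟩ := chain_divs G g hg ans fs (fun f' hf' => h f' (List.mem_cons_of_mem _ hf'))
    obtain ⟨u, hu⟩ := operand_divs (h f (by simp))
    obtain ⟨v, hv⟩ := operand_divs hg
    refine ⟨.arith .div u v T, fun x acc hx => ?_⟩
    have h1 := hT x (acc ++ [f x / g x]) hx
    rw [CompTree.run, hu, hv]
    simp only [Op.eval]
    rw [List.append_assoc, h1]
    simp
    exact hx

theorem taskDivs : DivsStmt := by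
  intro κ P k c f g hf hg ans L hL
  have h1 : Der P ∅ ((Finset.univ : Finset (Fin k)).card * c)
      (⋃ i ∈ (Finset.univ : Finset (Fin k)), {f i}) := Der.iUnion _ fun i _ => hf i
  have h2 := h1.trans (hg.mono (Set.empty_subset _) le_rfl subset_rfl)
  obtain ⟨L', c', hc', hr, hav⟩ := h2 L (by simp)
  have hfa : ∀ i, Av L' (f i) := fun i => hav _ (Or.inl (by
    simp only [Set.mem_iUnion]
    exact ⟨i, Finset.mem_univ i, rfl⟩))
  have hga : Av L' g := hav g (Or.inr rfl)
  obtain ⟨T, hT⟩ := chain_divs L' g hga ans (List.ofFn f) (by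
    intro f' hf'
    obtain ⟨i, rfl⟩ := (List.mem_ofFn' f f').1 hf'
    exact hfa i)
  obtain ⟨T', hT'⟩ := hr.tree T
  refine ⟨T', fun x hx => ⟨L'.map fun h => h x, k + c', ?_, ?_, ?_⟩⟩
  · have h3 := hT x [] hx
    rw [List.append_nil] at h3
    rw [hT', h3, Option.map_some, List.map_ofFn, List.length_ofFn]
    rfl
  · rw [Finset.card_univ, Fintype.card_fin] at hc'
    have : (k + 1) * c = k * c + c := by ring
    omega
  · intro v hv
    obtain ⟨h, hh, rfl⟩ := List.mem_map.1 hv
    exact ⟨h, hr.all hL h hh, rfl⟩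

end Pool.Agent.H883LP
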