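import Pool.Agent.H883LP.Stmts

set_option autoImplicit false

/-!
# Straight-line code followed by divisions
-/

namespace Pool.Agent.H883LP

open Pool.Agent.H558R2

lemma operand_divs690 {κ : Type} {L : List (Fn κ)} {f : Fn κ} (h : Av L f) :
    ∃ u : Operand κ, ∀ (x : κ → ℝ) (extra : List ℝ),
      u.value x (L.map (fun g => g x) ++ extra) = some (f x) := by
  rcases h with ⟨k, rfl⟩ | rfl | rfl | h
  · exact ⟨.input k, fun x _ => rfl⟩
  · exact ⟨.zero, fun x _ => rfl⟩
  · exact ⟨.one, fun x _ => rfl⟩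
  · obtain ⟨j, hj, hj'⟩ := List.mem_iff_getElem.1 h
    refine ⟨.result j, fun x extra => ?_⟩
    have hl : j < (L.map fun g => g x).length := by simpa using hj
    rw [Operand.value, List.getElem?_append_left hl]
    simp [List.getElem?_map, List.getElem?_eq_getElem hj, hj']

lemma chain_divs690 {κ : Type} (L : List (Fn κ)) (g : Fn κ) (hg : Av L g) (ans : Bool) :
    ∀ fs : List (Fn κ), (∀ f ∈ fs, Av L f) → ∃ T : CompTree κ, ∀ x, g x ≠ 0 →
      ∀ extra : List ℝ, T.run x (L.map (fun h => h x) ++ extra) =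
        some (ans, L.map (fun h => h x) ++ extra ++ fs.map (fun f => f x / g x),
          fs.length) := by
  intro fs
  induction fs with
  | nil =>
    intro _
    exact ⟨.answer ans, fun x _ extra => by simp [CompTree.run]⟩
  | cons f fs ih =>
    intro hfs
    obtain ⟨T, hT⟩ := ih (fun f' hf' => hfs f' (List.mem_cons_of_mem _ hf'))
    obtain ⟨u, hu⟩ := operand_divs690 (hfs f (List.mem_cons_self))
    obtain ⟨v, hv⟩ := operand_divs690 hg
    refine ⟨.arith .div u v T, fun x hx extra => ?_⟩
    rw [CompTree.run, hu, hv]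
    simp only
    rw [List.append_assoc, hT x hx]
    simp [Op.eval, hx]

/-- Task `DivsStmt`. -/
theorem taskDivs690 : DivsStmt := by
  classical
  intro κ P k c f g hf hg ans L hL
  have h1 : Der P ∅ ((Finset.univ : Finset (Fin k)).card * c)
      (⋃ i ∈ (Finset.univ : Finset (Fin k)), {f i}) := Der.iUnion _ (fun i _ => hf i)
  have h2 := h1.trans (hg.mono (Set.empty_subset _) le_rfl subset_rfl)
  obtain ⟨L', c', hc', hr, hav⟩ := h2 L (by simp)
  have hgav : Av L' g := hav g (Or.inr rfl)
  have hfav : ∀ i, Av L' (f i) := by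
    intro i
    refine hav (f i) (Or.inl ?_)
    simp only [Finset.mem_univ, Set.iUnion_true, Set.mem_iUnion, Set.mem_singleton_iff]
    exact ⟨i, rfl⟩
  obtain ⟨T, hT⟩ := chain_divs690 L' g hgav ans (List.ofFn f) (by
    intro f' hf'
    rw [List.mem_ofFn] at hf'
    obtain ⟨i, rfl⟩ := hf'
    exact hfav i)
  obtain ⟨T', hT'⟩ := hr.tree T
  refine ⟨T', fun x hx => ⟨L'.map (fun h => h x), k + c', ?_, ?_, ?_⟩⟩
  · have h3 := hT x hx []
    rw [List.append_nil] at h3
    rw [hT', h3]
    simp [List.map_ofFn, Function.comp_def]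
  · rw [Finset.card_univ, Fintype.card_fin] at hc'
    have e : (k + 1) * c = k * c + c := by ring
    rw [e]
    omega
  · intro v hv
    obtain ⟨h, hh, rfl⟩ := List.mem_map.1 hv
    exact ⟨h, hr.all hL h hh, rfl⟩

end Pool.Agent.H883LP
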