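import Pool.Agent.H883LP.Stmts

set_option autoImplicit false

/-!
# Duality for the combined system (tasks DualA, DualB of project H883-LPT)
-/

namespace Pool.Agent.H883LP

open Matrix


/-- evaluation of a row of the combined system -/
theorem row_dual (m n : ℕ) (A : Matrix (Fin m) (Fin n) ℝ) (b : Fin m → ℝ) (c : Fin n → ℝ)
    (z : Fin (n + m) → ℝ) (r : Row m n) :
    (cAF A b c).mulVec z (rowEquiv m n r) =
      ∑ j, cA A b c r (.inl j) * z (Fin.castAdd m j) +
        ∑ i, cA A b c r (.inr i) * z (Fin.natAdd n i) := by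
  unfold Matrix.mulVec dotProduct cAF
  rw [Fin.sum_univ_add]
  simp

/-- weak duality -/
theorem weak_dual (m n : ℕ) (A : Matrix (Fin m) (Fin n) ℝ) (b : Fin m → ℝ)
    (x : Fin n → ℝ) (y : Fin m → ℝ) (hx : b ≤ A.mulVec x) (hy : 0 ≤ y) :
    b ⬝ᵥ y ≤ Matrix.vecMul y A ⬝ᵥ x := by
  rw [← Matrix.dotProduct_mulVec, dotProduct_comm b y]
  exact Finset.sum_le_sum fun i _ => mul_le_mul_of_nonneg_left (hx i) (hy i)

theorem taskDualA : DualAStmt := by
  intro m n A b c z hz
  have hrow : ∀ r : Row m n, cB b c r ≤ ∑ j, cA A b c r (.inl j) * z (Fin.castAdd m j) +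
        ∑ i, cA A b c r (.inr i) * z (Fin.natAdd n i) := by
    intro r
    rw [← row_dual]
    have := hz (rowEquiv m n r)
    simpa [cBF] using this
  set x : Fin n → ℝ := fun j => z (Fin.castAdd m j) with hxdef
  set y : Fin m → ℝ := fun i => z (Fin.natAdd n i) with hydef
  have h1 : b ≤ A.mulVec x := by
    intro i
    have := hrow (.inl (.inl i))
    simpa [cA, cB, Matrix.mulVec, dotProduct, hxdef] using this
  have h2 : 0 ≤ y := by
    intro i
    have := hrow (.inl (.inr i))
    simpa [cA, cB, hydef] using this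
  have h3 : Matrix.vecMul y A = c := by
    funext j
    have ha := hrow (.inr (.inl (.inl j)))
    have hb := hrow (.inr (.inl (.inr j)))
    simp only [cA, cB, zero_mul, Finset.sum_const_zero, zero_add, neg_mul,
      Finset.sum_neg_distrib] at ha hb
    have e : Matrix.vecMul y A j = ∑ i, A i j * z (Fin.natAdd n i) := by
      simp [Matrix.vecMul, dotProduct, hydef, mul_comm]
    rw [e]
    linarith
  have h4 : c ⬝ᵥ x ≤ b ⬝ᵥ y := by
    have := hrow (.inr (.inr ()))
    simp only [cA, cB, neg_mul, Finset.sum_neg_distrib] at this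
    have e1 : c ⬝ᵥ x = ∑ j, c j * z (Fin.castAdd m j) := rfl
    have e2 : b ⬝ᵥ y = ∑ i, b i * z (Fin.natAdd n i) := rfl
    rw [e1, e2]
    linarith
  have h5 : ∀ x' : Fin n → ℝ, b ≤ A.mulVec x' → b ⬝ᵥ y ≤ c ⬝ᵥ x' := by
    intro x' hx'
    have := weak_dual m n A b x' y hx' h2
    rwa [h3] at this
  exact ⟨h1, h2, h3, le_antisymm h4 (h5 x h1), fun x' hx' => h4.trans (h5 x' hx')⟩

/-- evaluation of a sum over the rows -/
theorem sum_row_dual (m n : ℕ) (f : Fin (m + m + (n + n + 1)) → ℝ) :
    ∑ r, f r = ((∑ i, f (rowEquiv m n (.inl (.inl i)))) + ∑ i, f (rowEquiv m n (.inl (.inr i)))) +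
      (((∑ j, f (rowEquiv m n (.inr (.inl (.inl j))))) +
        ∑ j, f (rowEquiv m n (.inr (.inl (.inr j))))) + f (rowEquiv m n (.inr (.inr ())))) := by
  rw [← (rowEquiv m n).sum_comp f, Fintype.sum_sum_type, Fintype.sum_sum_type,
    Fintype.sum_sum_type, Fintype.sum_sum_type]
  simp

theorem taskDualB : DualBStmt := by
  intro m n A b c w hw hwA hwb
  rintro ⟨x, hx, hopt⟩
  set u : Fin m → ℝ := fun i => w (rowEquiv m n (.inl (.inl i))) with hu
  set v : Fin m → ℝ := fun i => w (rowEquiv m n (.inl (.inr i))) with hv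
  set p : Fin n → ℝ := fun j => w (rowEquiv m n (.inr (.inl (.inl j)))) with hp
  set q : Fin n → ℝ := fun j => w (rowEquiv m n (.inr (.inl (.inr j)))) with hq
  set t : ℝ := w (rowEquiv m n (.inr (.inr ()))) with ht
  have hu0 : 0 ≤ u := fun i => hw _
  have hv0 : 0 ≤ v := fun i => hw _
  have ht0 : 0 ≤ t := hw _
  -- the columns
  have hcol1 : Matrix.vecMul u A = t • c := by
    funext j
    have h := congrFun hwA (Fin.castAdd m j)
    simp only [Matrix.vecMul, dotProduct, Pi.zero_apply] at h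
    rw [sum_row_dual] at h
    simp only [cAF, Equiv.symm_apply_apply, finSumFinEquiv_symm_apply_castAdd, cA, mul_zero,
      Finset.sum_const_zero, add_zero, zero_add, mul_neg] at h
    simp only [Matrix.vecMul, dotProduct, Pi.smul_apply, smul_eq_mul]
    linarith
  set r : Fin n → ℝ := fun j => q j - p j with hr
  have hcol2 : A.mulVec r = v + t • b := by
    funext i
    have h := congrFun hwA (Fin.natAdd n i)
    simp only [Matrix.vecMul, dotProduct, Pi.zero_apply] at h
    rw [sum_row_dual] at h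
    simp only [cAF, Equiv.symm_apply_apply, finSumFinEquiv_symm_apply_natAdd, cA, mul_zero,
      Finset.sum_const_zero, zero_add, mul_neg, mul_ite, mul_one, Finset.sum_ite_eq',
      Finset.mem_univ, if_true, Finset.sum_neg_distrib] at h
    simp only [Matrix.mulVec, dotProduct, Pi.add_apply, Pi.smul_apply, smul_eq_mul]
    have e : ∑ j, A i j * r j = (∑ j, q j * A i j) - ∑ j, p j * A i j := by
      rw [← Finset.sum_sub_distrib]
      exact Finset.sum_congr rfl fun j _ => by simp only [hr]; ring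
    rw [e]
    linarith
  have hrhs : c ⬝ᵥ r < b ⬝ᵥ u := by
    have h := hwb
    simp only [dotProduct] at h
    rw [sum_row_dual] at h
    simp only [cBF, Equiv.symm_apply_apply, cB, mul_zero,
      Finset.sum_const_zero, add_zero, mul_neg, Finset.sum_neg_distrib] at h
    have e : c ⬝ᵥ r = (∑ j, q j * c j) - ∑ j, p j * c j := by
      rw [← Finset.sum_sub_distrib]
      exact Finset.sum_congr rfl fun j _ => by simp only [hr]; ring
    have e2 : b ⬝ᵥ u = ∑ i, u i * b i := by
      exact Finset.sum_congr rfl fun j _ => mul_comm _ _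
    rw [e, e2]
    linarith
  rcases eq_or_lt_of_le ht0 with h0 | h0
  · -- `t = 0`
    have hz : Matrix.vecMul u A = 0 := by rw [hcol1, ← h0]; simp
    have h1 : b ⬝ᵥ u ≤ 0 := by
      have := weak_dual m n A b x u hx hu0
      rwa [hz, zero_dotProduct] at this
    have h2 : b ≤ A.mulVec (x + r) := by
      rw [Matrix.mulVec_add, hcol2, ← h0]
      intro i
      have := hx i
      have := hv0 i
      simp only [Pi.zero_apply] at this
      simp only [Pi.add_apply, zero_smul, Pi.zero_apply]
      linarith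
    have h3 := hopt _ h2
    rw [dotProduct_add] at h3
    linarith
  · -- `t > 0`
    have h1 : Matrix.vecMul u A ⬝ᵥ r = t * (c ⬝ᵥ r) := by
      rw [hcol1, smul_dotProduct, smul_eq_mul]
    have h2 : Matrix.vecMul u A ⬝ᵥ r = u ⬝ᵥ v + t * (b ⬝ᵥ u) := by
      rw [← Matrix.dotProduct_mulVec, hcol2, dotProduct_add, dotProduct_smul, smul_eq_mul,
        dotProduct_comm u b]
    have h3 : 0 ≤ u ⬝ᵥ v := Finset.sum_nonneg fun i _ => mul_nonneg (hu0 i) (hv0 i)
    have h4 : t * (b ⬝ᵥ u) ≤ t * (c ⬝ᵥ r) := by linarith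
    have h5 : b ⬝ᵥ u ≤ c ⬝ᵥ r := le_of_mul_le_mul_left h4 h0
    linarith

end Pool.Agent.H883LP
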