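import Pool.Agent.H883LP.Stmts

set_option autoImplicit false

/-!
# Task Len (helper741)
-/

namespace Pool.Agent.H883LP

open Pool.Agent.H558R2 Matrix

lemma two_le_bitLength_Len (q : ℚ) : 2 ≤ bitLength q := by
  unfold bitLength
  have h : 0 < Nat.size q.den := Nat.size_pos.2 q.den_pos
  omega

lemma bitLength_neg_Len (q : ℚ) : bitLength (-q) = bitLength q := by
  unfold bitLength
  rw [Rat.neg_num, Rat.neg_den, Int.natAbs_neg]

lemma bitLength_zero_Len : bitLength 0 = 2 := by
  simp [bitLength]

lemma bitLength_one_Len : bitLength 1 = 3 := by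
  simp [bitLength]

theorem taskLen : LenStmt := by
  intro m n hm hn A b c
  have hA : ∀ i j, bitLength (A i j) ≤ optLength A b c := by
    intro i j
    have h1 : bitLength (A i j) ≤ ∑ j, bitLength (A i j) :=
      Finset.single_le_sum (f := fun j => bitLength (A i j)) (fun _ _ => Nat.zero_le _)
        (Finset.mem_univ j)
    have h2 : ∑ j, bitLength (A i j) ≤ ∑ i, ∑ j, bitLength (A i j) :=
      Finset.single_le_sum (f := fun i => ∑ j, bitLength (A i j)) (fun _ _ => Nat.zero_le _)
        (Finset.mem_univ i)
    unfold optLength inputLength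
    omega
  have hb : ∀ i, bitLength (b i) ≤ optLength A b c := by
    intro i
    have h1 : bitLength (b i) ≤ ∑ i, bitLength (b i) :=
      Finset.single_le_sum (f := fun i => bitLength (b i)) (fun _ _ => Nat.zero_le _)
        (Finset.mem_univ i)
    unfold optLength inputLength
    omega
  have hc : ∀ j, bitLength (c j) ≤ optLength A b c := by
    intro j
    have h1 : bitLength (c j) ≤ ∑ j, bitLength (c j) :=
      Finset.single_le_sum (f := fun j => bitLength (c j)) (fun _ _ => Nat.zero_le _)
        (Finset.mem_univ j)
    unfold optLength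
    omega
  have hL : 2 * (m + n) + 2 ≤ optLength A b c := by
    have h1 : m * (n * 2) ≤ ∑ i, ∑ j, bitLength (A i j) := by
      calc m * (n * 2) = ∑ _i : Fin m, ∑ _j : Fin n, 2 := by simp
        _ ≤ _ := Finset.sum_le_sum fun i _ => Finset.sum_le_sum fun j _ =>
          two_le_bitLength_Len _
    have h2 : m * 2 ≤ ∑ i, bitLength (b i) := by
      calc m * 2 = ∑ _i : Fin m, 2 := by simp
        _ ≤ _ := Finset.sum_le_sum fun i _ => two_le_bitLength_Len _
    have h3 : n * 2 ≤ ∑ j, bitLength (c j) := by
      calc n * 2 = ∑ _i : Fin n, 2 := by simp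
        _ ≤ _ := Finset.sum_le_sum fun i _ => two_le_bitLength_Len _
    have h4 : 1 ≤ m * n := Nat.mul_pos hm hn
    have h5 : m * (n * 2) = 2 * (m * n) := by ring
    unfold optLength inputLength
    omega
  have h0 : bitLength 0 ≤ optLength A b c := by rw [bitLength_zero_Len]; omega
  have h1 : bitLength 1 ≤ optLength A b c := by rw [bitLength_one_Len]; omega
  have hcA : ∀ r v, bitLength (cA A b c r v) ≤ optLength A b c := by
    rintro ((i | i) | ((j | j) | _)) (j' | i')
    · exact hA _ _
    · exact h0
    · exact h0
    · simp only [cA]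
      split_ifs
      · exact h1
      · exact h0
    · exact h0
    · exact hA _ _
    · exact h0
    · simp only [cA]
      rw [bitLength_neg_Len]
      exact hA _ _
    · simp only [cA]
      rw [bitLength_neg_Len]
      exact hc _
    · exact hb _
  have hcB : ∀ r : Row m n, bitLength (cB b c r) ≤ optLength A b c := by
    rintro ((i | i) | ((j | j) | _))
    · exact hb _
    · exact h0
    · exact hc _
    · simp only [cB]
      rw [bitLength_neg_Len]
      exact hc _
    · exact h0
  set L := optLength A b c with hLdef
  refine ⟨?_, by omega⟩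
  have e1 : inputLength (cAF A b c) (cBF b c) ≤
      (m + m + (n + n + 1)) * ((n + m) * L) + (m + m + (n + n + 1)) * L := by
    unfold inputLength
    refine Nat.add_le_add ?_ ?_
    · calc ∑ i, ∑ j, bitLength (cAF A b c i j)
          ≤ ∑ _i : Fin (m + m + (n + n + 1)), ∑ _j : Fin (n + m), L :=
            Finset.sum_le_sum fun i _ => Finset.sum_le_sum fun j _ => hcA _ _
        _ = _ := by simp
    · calc ∑ i, bitLength (cBF b c i) ≤ ∑ _i : Fin (m + m + (n + n + 1)), L :=
            Finset.sum_le_sum fun i _ => hcB _
        _ = _ := by simp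
  refine e1.trans ?_
  have e2 : m + m + (n + n + 1) ≤ 2 * L := by omega
  have e3 : n + m + 1 ≤ L := by omega
  calc (m + m + (n + n + 1)) * ((n + m) * L) + (m + m + (n + n + 1)) * L
      = (m + m + (n + n + 1)) * ((n + m + 1) * L) := by ring
    _ ≤ (2 * L) * (L * L) := Nat.mul_le_mul e2 (Nat.mul_le_mul e3 le_rfl)
    _ = 2 * L ^ 3 := by ring

end Pool.Agent.H883LP
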