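import Pool.Agent.H883LP.Stmts

/-!
H883-LPT, task SolX: the solution read off from a feasibility certificate.
-/

set_option autoImplicit false

namespace Pool.Agent.H883LP

open Pool.Agent.H558R2 Matrix

theorem taskSolX : SolXStmt := by
  intro m n A b β hgood
  obtain ⟨h0, h1⟩ := hgood
  simp only at h0 h1
  intro i
  set w := wmat A b with hw
  set d := dd w (fun j => some (β j)) with hd
  set y : Fin m → ℝ := fun j => dd w (Function.update (fun j => some (β j)) j none) / d with hy
  have hy0 : ∀ j, 0 ≤ y j := by
    intro j
    have : y j = dd w (Function.update (fun j => some (β j)) j none) * d / (d * d) := by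
      rw [hy]; field_simp
    rw [this]
    exact div_nonneg (h1 j) (mul_self_nonneg d)
  have hx : ∀ c, numX β c (lpInput A b) / denF β (lpInput A b) =
      ∑ j, y j * xi ((colEquiv m n).symm (β j)) c := by
    intro c
    change (∑ j, xi ((colEquiv m n).symm (β j)) c *
      dd w (Function.update (fun j => some (β j)) j none)) / d = _
    rw [Finset.sum_div]
    apply Finset.sum_congr rfl
    intro j _
    simp only [hy]
    ring
  change b i ≤ ∑ c, A i c * (numX β c (lpInput A b) / denF β (lpInput A b))
  simp only [hx]
  have e1 : ∑ c, A i c * ∑ j, y j * xi ((colEquiv m n).symm (β j)) c =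
      ∑ j, y j * ∑ c, A i c * xi ((colEquiv m n).symm (β j)) c := by
    simp only [Finset.mul_sum]
    rw [Finset.sum_comm]
    refine Finset.sum_congr rfl fun j _ => Finset.sum_congr rfl fun c _ => ?_
    ring
  rw [e1]
  have e2 : ∑ j, y j * (- colEntry A i ((colEquiv m n).symm (β j))) ≤
      ∑ j, y j * ∑ c, A i c * xi ((colEquiv m n).symm (β j)) c :=
    Finset.sum_le_sum fun j _ => mul_le_mul_of_nonneg_left (xi_spec A i _) (hy0 j)
  refine le_trans (le_of_eq ?_) e2
  have e3 := sum_dd w (fun j => some (β j)) none i
  have e4 : w i none = - b i := rfl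
  have e5 : ∀ j, w i (some (β j)) = colEntry A i ((colEquiv m n).symm (β j)) := fun j => rfl
  simp only [e5] at e3
  rw [e4, ← hd] at e3
  have e6 : b i = - ((d * -b i) / d) := by
    field_simp
  rw [e6, e3, Finset.sum_div, ← Finset.sum_neg_distrib]
  refine Finset.sum_congr rfl fun j _ => ?_
  simp only [hy]
  ring

end Pool.Agent.H883LP
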