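import Pool.Agent.H883LP.Stmts

set_option autoImplicit false

/-!
# Task Cert: certificates with the inequalities themselves
-/

namespace Pool.Agent.H883LP

open Pool.Agent.H558R2 Matrix

/-- Every locally realizable sign assignment has a certificate (adaptation of `exists_cert`). -/
theorem taskCert : CertStmt := by
  intro m n s hs σ hloc
  have h0 : σ (fun j => some (slackBasis m n j)) ≠ 0 := by
    obtain ⟨a, ha⟩ := hloc {fun j => some (slackBasis m n j)} (by simp; omega)
    rw [← ha _ (by simp)]
    unfold pat chi
    rw [dd_slack]
    simp
  obtain ⟨β, hβ, -, hcase⟩ := exists_terminal (w := fun a : Inp m n => wmat a.1 a.2) hs hloc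
    (m + (n + n)) le_rfl _ h0
  have hsg : ∀ a : Inp m n, ∀ i x, pat a (Function.update (fun j => some (β j)) i x) =
        σ (Function.update (fun j => some (β j)) i x) →
      pat a (fun j => some (β j)) = σ (fun j => some (β j)) →
      tau σ β i x = SignType.sign (dd (wmat a.1 a.2) (Function.update (fun j => some (β j)) i x) *
        dd (wmat a.1 a.2) (fun j => some (β j))) := by
    intro a i x h1 h2
    unfold tau
    rw [sign_mul, ← h1, ← h2]
    rfl
  have hne : ∀ a : Inp m n, pat a (fun j => some (β j)) = σ (fun j => some (β j)) →
      dd (wmat a.1 a.2) (fun j => some (β j)) ≠ 0 := by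
    intro a h h'
    apply hβ
    rw [← h]
    unfold pat chi
    rw [h', sign_zero]
  rcases hcase with hF | ⟨i, -, hi2, hi3⟩
  · refine ⟨{fun j => some (β j)} ∪
      Finset.univ.image (fun j => Function.update (fun j => some (β j)) j none), ?_,
      (β, none), ?_⟩
    · refine (Finset.card_union_le _ _).trans ?_
      have c1 : (Finset.univ.image (fun j => Function.update (fun j => some (β j)) j
        (none : Option (Fin (m + (n + n)))))).card ≤ m := Finset.card_image_le.trans (by simp)
      simp only [Finset.card_singleton]
      omega
    · intro a ha
      have ha0 := ha (fun j => some (β j)) (by simp)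
      refine ⟨hne a ha0, ?_⟩
      intro j
      have := hF j (β j).2
      rw [hsg a j none (ha _ (by simp)) ha0, Ne, sign_eq_neg_one_iff, not_lt] at this
      exact this
  · refine ⟨({fun j => some (β j)} ∪ {Function.update (fun j => some (β j)) i none}) ∪
      Finset.univ.image (fun k => Function.update (fun j => some (β j)) i (some k)), ?_,
      (β, some i), ?_⟩
    · refine (Finset.card_union_le _ _).trans ?_
      have c1 : (Finset.univ.image (fun k => Function.update (fun j => some (β j)) i
        (some k))).card ≤ m + (n + n) := Finset.card_image_le.trans (by simp)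
      have c2 := Finset.card_union_le {fun j => some (β j)}
        {Function.update (fun j => some (β j)) i (none : Option (Fin (m + (n + n))))}
      simp only [Finset.card_singleton] at c2
      omega
    · intro a ha
      have ha0 := ha (fun j => some (β j)) (by simp)
      refine ⟨hne a ha0, ?_, ?_⟩
      · rw [hsg a i none (ha _ (by simp)) ha0, sign_eq_neg_one_iff] at hi2
        exact hi2
      · intro k
        have := hi3 k k.2
        rw [hsg a i (some k) (ha _ (by simp)) ha0, Ne, sign_eq_neg_one_iff, not_lt] at this
        exact this

end Pool.Agent.H883LP
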