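import Pool.Agent.H883LP.Stmts

set_option autoImplicit false

namespace Pool.Agent.H883LP

open Pool.Agent.H558R2 Matrix

theorem taskDf : DfStmt := by
  intro m n hm β D H X hD hDH hX
  have hN := ib_Nf β hD hDH hX hm (m - 1) (by omega)
  have h1 := (IB.zero ((m - 1 + 1).factorial * D ^ (m - 1 + 1)) 0).sub
    (ib_Qf β hD hDH hX (m - 1) hN)
  rw [zero_add, Nat.sub_add_cancel hm] at h1
  have e : Df β (fun i => (X i : ℝ) / D) = 0 - Qf β (m - 1) (fun i => (X i : ℝ) / D) := by
    rw [Df_eq β hm]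
  rw [e]
  exact h1

end Pool.Agent.H883LP
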