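import Pool.Agent.H883LP.Stmts

set_option autoImplicit false

/-!
# Halving for relations (helper436; copy of `Pool/Agent/H558R2/Halving.lean`)
-/

namespace Pool.Agent.H883LP

open Pool.Agent.H558R2

/-- build a node from a function on signs -/
def mk_TaskHalve {Q O : Type} (q : Q) (f : SignType → QTO Q O) : QTO Q O :=
  QTO.node q (f SignType.neg) (f SignType.zero) (f SignType.pos)

lemma eval_mk_TaskHalve {Q O : Type} (q : Q) (f : SignType → QTO Q O) (σ : Q → SignType) :
    (mk_TaskHalve q f).eval σ = (f (σ q)).eval σ := by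
  unfold mk_TaskHalve
  rw [QTO.eval]
  cases h : σ q <;> rfl

lemma depth_mk_le_TaskHalve {Q O : Type} (q : Q) (f : SignType → QTO Q O) (d : ℕ)
    (h : ∀ t, (f t).depth ≤ d) : (mk_TaskHalve q f).depth ≤ d + 1 := by
  unfold mk_TaskHalve
  rw [QTO.depth]
  have h1 := h SignType.neg
  have h2 := h SignType.zero
  have h3 := h SignType.pos
  have := max_le (max_le h1 h2) h3
  omega

section Halving

variable {Q O : Type} [DecidableEq Q] [Fintype Q] {α : Type}

/-- Query a list of queries and leave at the first surprise. -/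
lemma exists_list_tree_TaskHalve (χ : α → Q → SignType) (R : α → O → Prop)
    (Z : Finset (Q → SignType)) (σ : Q → SignType) (o : O) (d : ℕ) (l : List Q)
    (hl : ∀ q ∈ l, ∃ T : QTO Q O, T.depth ≤ d ∧
      ∀ a, χ a ∈ Z → χ a q ≠ σ q → R a (T.eval (χ a))) :
    ∃ T : QTO Q O, T.depth ≤ l.length + d ∧
      ∀ a, χ a ∈ Z → ((∀ q ∈ l, χ a q = σ q) → R a o) → R a (T.eval (χ a)) := by
  induction l with
  | nil =>
    refine ⟨QTO.leaf o, by simp [QTO.depth], ?_⟩
    intro a _ h
    simp only [QTO.eval]
    exact h (by simp)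
  | cons q l ih =>
    obtain ⟨T1, hT1, hT1'⟩ := ih (fun q' hq' => hl q' (by simp [hq']))
    obtain ⟨T2, hT2, hT2'⟩ := hl q (by simp)
    refine ⟨mk_TaskHalve q (fun t => if t = σ q then T1 else T2), ?_, ?_⟩
    · have := depth_mk_le_TaskHalve q (fun t => if t = σ q then T1 else T2) (l.length + d) (by
        intro t
        split_ifs
        · exact hT1
        · omega)
      simp only [List.length_cons]
      omega
    · intro a ha h
      rw [eval_mk_TaskHalve]
      by_cases hq : χ a q = σ q
      · rw [if_pos hq]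
        apply hT1' a ha
        intro h'
        apply h
        intro q' hq'
        rcases List.mem_cons.1 hq' with rfl | hq'
        · exact hq
        · exact h' q' hq'
      · rw [if_neg hq]
        exact hT2' a ha hq

/-- **The halving argument.** -/
theorem exists_tree_aux_TaskHalve (o₀ : O) (χ : α → Q → SignType) (R : α → O → Prop) (s : ℕ)
    (hs : 2 ≤ s)
    (H : ∀ σ : Q → SignType, LocReal χ s σ → ∃ D : Finset Q, D.card ≤ s ∧
      ∃ o : O, ∀ a, (∀ q ∈ D, χ a q = σ q) → R a o) (k : ℕ) :
    ∀ Z : Finset (Q → SignType), (∀ ρ ∈ Z, ∃ a, χ a = ρ) → Z.card * (s - 1) ^ k < s ^ k →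
      ∃ T : QTO Q O, T.depth ≤ s * k ∧ ∀ a, χ a ∈ Z → R a (T.eval (χ a)) := by
  induction k with
  | zero =>
    intro Z _ hZ
    have : Z = ∅ := by
      rw [← Finset.card_eq_zero]
      simpa using hZ
    subst this
    exact ⟨QTO.leaf o₀, by simp [QTO.depth], by simp⟩
  | succ k ih =>
    intro Z hZr hZ
    by_cases hZe : Z = ∅
    · subst hZe
      exact ⟨QTO.leaf o₀, by simp [QTO.depth], by simp⟩
    have hZpos : 0 < Z.card := Finset.card_pos.2 (Finset.nonempty_iff_ne_empty.2 hZe)
    by_cases hq : ∃ q, ∀ t : SignType, s * (Z.filter (fun ρ => ρ q = t)).card ≤ (s - 1) * Z.card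
    · obtain ⟨q, hq⟩ := hq
      have key : ∀ t : SignType, ∃ T : QTO Q O, T.depth ≤ s * k ∧
          ∀ a, χ a ∈ Z.filter (fun ρ => ρ q = t) → R a (T.eval (χ a)) := by
        intro t
        apply ih
        · intro ρ hρ
          exact hZr ρ (Finset.mem_filter.1 hρ).1
        · have h1 := hq t
          have h2 : s * ((Z.filter (fun ρ => ρ q = t)).card * (s - 1) ^ k) < s * s ^ k := by
            calc s * ((Z.filter (fun ρ => ρ q = t)).card * (s - 1) ^ k)
                = (s * (Z.filter (fun ρ => ρ q = t)).card) * (s - 1) ^ k := by ring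
              _ ≤ ((s - 1) * Z.card) * (s - 1) ^ k := Nat.mul_le_mul_right _ h1
              _ = Z.card * (s - 1) ^ (k + 1) := by ring
              _ < s ^ (k + 1) := hZ
              _ = s * s ^ k := by ring
          exact Nat.lt_of_mul_lt_mul_left h2
      choose f hf hf' using key
      refine ⟨mk_TaskHalve q f, ?_, ?_⟩
      · have := depth_mk_le_TaskHalve q f (s * k) hf
        have h3 : s * (k + 1) = s * k + s := by ring
        omega
      · intro a ha
        rw [eval_mk_TaskHalve]
        exact hf' _ a (Finset.mem_filter.2 ⟨ha, rfl⟩)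
    · push Not at hq
      choose σ hσ using hq
      have hσ' : ∀ q, s * (Z.filter (fun ρ => ρ q ≠ σ q)).card < Z.card := by
        intro q
        have h1 := Finset.card_filter_add_card_filter_not (s := Z) (fun ρ => ρ q = σ q)
        have h2 := hσ q
        have h3 : s * Z.card = s * (Z.filter (fun ρ => ρ q = σ q)).card +
            s * (Z.filter (fun ρ => ¬ ρ q = σ q)).card := by
          rw [← mul_add, h1]
        have h4 : s * Z.card = (s - 1) * Z.card + Z.card := by
          obtain ⟨s', rfl⟩ : ∃ s', s = s' + 1 := ⟨s - 1, by omega⟩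
          simp only [Nat.add_sub_cancel]
          ring
        have h5 : (Z.filter (fun ρ => ρ q ≠ σ q)).card = (Z.filter (fun ρ => ¬ ρ q = σ q)).card :=
          rfl
        rw [h5]
        omega
      have hloc : LocReal χ s σ := by
        intro D hD
        have hex : ∃ ρ ∈ Z, ∀ q ∈ D, ρ q = σ q := by
          by_contra hcon
          push Not at hcon
          have hsub : Z ⊆ D.biUnion (fun q => Z.filter (fun ρ => ρ q ≠ σ q)) := by
            intro ρ hρ
            obtain ⟨q, hq1, hq2⟩ := hcon ρ hρ
            exact Finset.mem_biUnion.2 ⟨q, hq1, Finset.mem_filter.2 ⟨hρ, hq2⟩⟩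
          have h1 : Z.card ≤ ∑ q ∈ D, (Z.filter (fun ρ => ρ q ≠ σ q)).card :=
            (Finset.card_le_card hsub).trans Finset.card_biUnion_le
          rcases D.eq_empty_or_nonempty with hD0 | hD0
          · subst hD0
            simp at h1
            exact hZe h1
          · have h2 : s * ∑ q ∈ D, (Z.filter (fun ρ => ρ q ≠ σ q)).card < D.card * Z.card := by
              rw [Finset.mul_sum]
              calc ∑ q ∈ D, s * (Z.filter (fun ρ => ρ q ≠ σ q)).card
                  < ∑ _q ∈ D, Z.card := Finset.sum_lt_sum_of_nonempty hD0 (fun q _ => hσ' q)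
                _ = D.card * Z.card := by simp
            have h3 : D.card * Z.card ≤ s * Z.card := Nat.mul_le_mul_right _ hD
            have h4 : s * Z.card ≤ s * ∑ q ∈ D, (Z.filter (fun ρ => ρ q ≠ σ q)).card :=
              Nat.mul_le_mul_left _ h1
            omega
        obtain ⟨ρ, hρ, hρ'⟩ := hex
        obtain ⟨a, ha⟩ := hZr ρ hρ
        exact ⟨a, fun q hq => by rw [ha]; exact hρ' q hq⟩
      obtain ⟨D, hD, o, ho⟩ := H σ hloc
      have hsub : ∀ q ∈ D.toList, ∃ T : QTO Q O, T.depth ≤ s * k ∧
          ∀ a, χ a ∈ Z → χ a q ≠ σ q → R a (T.eval (χ a)) := by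
        intro q _
        obtain ⟨T, hT, hT'⟩ := ih (Z.filter (fun ρ => ρ q ≠ σ q))
          (fun ρ hρ => hZr ρ (Finset.mem_filter.1 hρ).1) (by
            have h1 := hσ' q
            have h2 : s * ((Z.filter (fun ρ => ρ q ≠ σ q)).card * (s - 1) ^ k) < s * s ^ k := by
              calc s * ((Z.filter (fun ρ => ρ q ≠ σ q)).card * (s - 1) ^ k)
                  = (s * (Z.filter (fun ρ => ρ q ≠ σ q)).card) * (s - 1) ^ k := by ring
                _ ≤ Z.card * (s - 1) ^ k := Nat.mul_le_mul_right _ h1.le
                _ ≤ Z.card * (s - 1) ^ (k + 1) := by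
                    apply Nat.mul_le_mul_left
                    exact Nat.pow_le_pow_right (by omega) (by omega)
                _ < s ^ (k + 1) := hZ
                _ = s * s ^ k := by ring
            exact Nat.lt_of_mul_lt_mul_left h2)
        exact ⟨T, hT, fun a ha hne => hT' a (Finset.mem_filter.2 ⟨ha, hne⟩)⟩
      obtain ⟨T, hT, hT'⟩ := exists_list_tree_TaskHalve χ R Z σ o (s * k) D.toList hsub
      refine ⟨T, ?_, ?_⟩
      · rw [Finset.length_toList] at hT
        have h3 : s * (k + 1) = s * k + s := by ring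
        omega
      · intro a ha
        apply hT' a ha
        intro h
        apply ho
        intro q hq
        exact h q (by simpa using hq)

end Halving

theorem taskHalve : HalveStmt := by
  intro Q O α _ _ o₀ χ R s hs H P hP
  classical
  have hfin : (Set.range χ).Finite := Set.toFinite _
  obtain ⟨T, hT, hT'⟩ := exists_tree_aux_TaskHalve o₀ χ R s hs H (s * (P + 1)) hfin.toFinset (by
    intro ρ hρ
    simpa using hρ) (by
    rw [← Set.ncard_eq_toFinset_card _ hfin]
    have h1 : (2 : ℕ) ^ (P + 1) * (s - 1) ^ (s * (P + 1)) ≤ s ^ (s * (P + 1)) := by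
      rw [pow_mul, pow_mul, ← mul_pow]
      exact Nat.pow_le_pow_left (two_mul_pred_pow_le s (by omega)) _
    have h2 : 0 < (s - 1) ^ (s * (P + 1)) := Nat.pow_pos (by omega)
    calc (Set.range χ).ncard * (s - 1) ^ (s * (P + 1))
        ≤ 2 ^ P * (s - 1) ^ (s * (P + 1)) := Nat.mul_le_mul_right _ hP
      _ < 2 ^ (P + 1) * (s - 1) ^ (s * (P + 1)) := by
          apply Nat.mul_lt_mul_of_pos_right _ h2
          rw [pow_succ]
          have : 0 < 2 ^ P := by positivity
          omega
      _ ≤ _ := h1)
  exact ⟨T, hT, fun a => hT' a (by simp)⟩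

end Pool.Agent.H883LP
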