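import Pool.Agent.H883LP.Stmts

set_option autoImplicit false

/-!
# The numerators and the denominator (TaskNum, by helper957)
-/

namespace Pool.Agent.H883LP

open Pool.Agent.H558R2 Matrix

lemma xi_cases_TaskNum {m n : ℕ} (k : Col m n) (c : Fin n) :
    xi k c = 0 ∨ xi k c = 1 ∨ xi k c = -1 := by
  rcases k with r | d | d
  · left
    rfl
  · simp only [xi, Pi.single_apply]
    split_ifs
    · right; left; rfl
    · left; rfl
  · simp only [xi, Pi.neg_apply, Pi.single_apply]
    split_ifs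
    · right; right; rfl
    · left; simp

lemma ib_xi_TaskNum {v a : ℝ} {E B : ℕ} (h : IB v E B) (ha : a = 0 ∨ a = 1 ∨ a = -1) :
    IB (a * v) E B := by
  obtain ⟨N, h1, h2⟩ := h
  rcases ha with rfl | rfl | rfl
  · exact ⟨0, by simp, by simp⟩
  · exact ⟨N, by rw [one_mul]; exact h1, h2⟩
  · refine ⟨-N, ?_, by rw [abs_neg]; exact h2⟩
    push_cast
    rw [← h1]
    ring

/-- One term of the numerator. -/
noncomputable def term_TaskNum {m n : ℕ} (β : Fin m → Fin (m + (n + n))) (c : Fin n)
    (j : Fin m) : Fn (Idx m n) :=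
  fun x => xi ((colEquiv m n).symm (β j)) c *
    Df (Function.update (fun j => some (β j)) j none) x

lemma big_sum_TaskNum {m D H : ℕ} (hD : 1 ≤ D) (hDH : D ≤ H) (hm : 1 ≤ m) :
    m * (m * (m * (H * (2 * m ^ 3 * H) ^ (m - 1)))) ≤ big m H := by
  have hH : 1 ≤ H := hD.trans hDH
  have h3 : 1 ≤ 2 * m ^ 3 * H := by
    have : 1 ≤ m ^ 3 := Nat.one_le_pow _ _ hm
    exact Nat.mul_pos (by omega) hH
  unfold big
  calc m * (m * (m * (H * (2 * m ^ 3 * H) ^ (m - 1))))
      = (m ^ 3 * H) * (2 * m ^ 3 * H) ^ (m - 1) := by ring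
    _ ≤ (2 * m ^ 3 * H) * (2 * m ^ 3 * H) ^ (m - 1) := by
        apply Nat.mul_le_mul_right
        apply Nat.mul_le_mul_right
        omega
    _ = (2 * m ^ 3 * H) ^ (m - 1 + 1) := by ring
    _ ≤ (2 * m ^ 3 * H) ^ (m + 1) := Nat.pow_le_pow_right h3 (by omega)

lemma uni_Df_TaskNum (hDf : DfStmt) {m n : ℕ} (hm : 1 ≤ m)
    (β : Fin m → Option (Fin (m + (n + n)))) : Uni (Df β) := by
  intro D H X hD hDH hX
  exact (hDf m n hm β D H X hD hDH hX).mono (big_B hD hDH hm (m - 1) (by omega))

lemma ib_psum_TaskNum (hDf : DfStmt) {m n : ℕ} (hm : 1 ≤ m) (β : Fin m → Fin (m + (n + n)))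
    (c : Fin n) (t : Finset (Fin m)) (D H : ℕ) (X : Idx m n → ℤ) (hD : 1 ≤ D) (hDH : D ≤ H)
    (hX : ∀ i, |X i| ≤ H) :
    IB (∑ j ∈ t, term_TaskNum β c j (fun i => (X i : ℝ) / D)) (m.factorial * D ^ m)
      (big m H) := by
  have h := IB.sum t (f := fun j => term_TaskNum β c j (fun i => (X i : ℝ) / D))
    (E := m.factorial * D ^ m) (B := m * (m * (H * (2 * m ^ 3 * H) ^ (m - 1)))) (by
      intro j _
      exact ib_xi_TaskNum (hDf m n hm (Function.update (fun j => some (β j)) j none)
        D H X hD hDH hX) (xi_cases_TaskNum _ c))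
  refine h.mono (le_trans ?_ (big_sum_TaskNum hD hDH hm))
  apply Nat.mul_le_mul_right
  exact (Finset.card_le_univ t).trans (by simp)

lemma small_psum_TaskNum (hDf : DfStmt) {m n : ℕ} (hm : 1 ≤ m) (β : Fin m → Fin (m + (n + n)))
    (c : Fin n) (t : Finset (Fin m)) :
    SmallVal (m := m) (n := n) (fun x => ∑ j ∈ t, term_TaskNum β c j x) := by
  intro D H X hD hDH hX
  have hb := big_E hD hDH hm m m le_rfl le_rfl
  exact ⟨_, hb.1, hb.2, ib_psum_TaskNum hDf hm β c t D H X hD hDH hX⟩

lemma small_term_TaskNum (hDf : DfStmt) {m n : ℕ} (hm : 1 ≤ m) (β : Fin m → Fin (m + (n + n)))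
    (c : Fin n) (j : Fin m) : SmallVal (m := m) (n := n) (term_TaskNum β c j) := by
  have h := small_psum_TaskNum hDf hm β c {j}
  simpa using h

lemma der_term_TaskNum (hDf : DfStmt) {m n : ℕ} (hm : 1 ≤ m) (β : Fin m → Fin (m + (n + n)))
    (c : Fin n) (j : Fin m) :
    Der (SmallVal (m := m) (n := n)) ∅ (minorCost m + 1) {term_TaskNum β c j} := by
  have h1 := der_Df (n := n) (Function.update (fun j => some (β j)) j none) hm
  rcases xi_cases_TaskNum ((colEquiv m n).symm (β j)) c with h0 | h0 | h0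
  · have e : term_TaskNum β c j = fun _ => 0 := by
      ext x
      simp [term_TaskNum, h0]
    refine (Der.base ?_).mono subset_rfl (Nat.zero_le _) subset_rfl
    intro f hf G _
    rw [Set.mem_singleton_iff.1 hf, e]
    exact Or.inr (Or.inl rfl)
  · have e : term_TaskNum β c j = Df (Function.update (fun j => some (β j)) j none) := by
      ext x
      simp [term_TaskNum, h0]
    rw [e]
    exact h1.mono subset_rfl (Nat.le_succ _) subset_rfl
  · have e : term_TaskNum β c j = fun x => Op.sub.eval ((fun _ => 0 : Fn (Idx m n)) x)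
        (Df (Function.update (fun j => some (β j)) j none) x) := by
      ext x
      simp [term_TaskNum, h0, Op.eval]
    have h2 : Der (SmallVal (m := m) (n := n))
        (∅ ∪ {Df (Function.update (fun j => some (β j)) j none)}) 1 {term_TaskNum β c j} := by
      have hs := small_term_TaskNum hDf hm β c j
      rw [e] at hs ⊢
      exact Der.op Op.sub _ _ (fun G _ => Or.inr (Or.inl rfl))
        (fun G hG => hG _ (Or.inr rfl)) (by simp) hs
    exact (h1.trans h2).mono subset_rfl le_rfl Set.subset_union_right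

lemma der_numX_TaskNum (hDf : DfStmt) {m n : ℕ} (hm : 1 ≤ m) (β : Fin m → Fin (m + (n + n)))
    (c : Fin n) :
    Der (SmallVal (m := m) (n := n)) ∅ (m * (minorCost m + 1) + m) {numX β c} := by
  have h1 := Der.iUnion (P := SmallVal (m := m) (n := n)) (K := ∅) (c := minorCost m + 1)
    (Finset.univ : Finset (Fin m)) (S := fun j => {term_TaskNum β c j})
    (fun j _ => der_term_TaskNum hDf hm β c j)
  have h2 := Der.sum (P := SmallVal (m := m) (n := n))
    (K := ∅ ∪ ⋃ i ∈ (Finset.univ : Finset (Fin m)), {term_TaskNum β c i})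
    (Finset.univ : Finset (Fin m)) (fun j => term_TaskNum β c j)
    (fun j _ => by
      right
      simp only [Finset.mem_univ, Set.iUnion_true, Set.mem_iUnion, Set.mem_singleton_iff]
      exact ⟨j, rfl⟩) (fun t _ => small_psum_TaskNum hDf hm β c t)
  have h := h1.trans h2
  refine h.mono subset_rfl (by simp) ?_
  intro f hf
  right
  rw [Set.mem_singleton_iff.1 hf]
  rfl

theorem taskNum : DfStmt → NumStmt := by
  intro hDf m n hm β
  refine ⟨uni_Df_TaskNum hDf hm _, fun c => ⟨?_, der_numX_TaskNum hDf hm β c⟩,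
    fun i r => uni_Df_TaskNum hDf hm _⟩
  intro D H X hD hDH hX
  exact ib_psum_TaskNum hDf hm β c Finset.univ D H X hD hDH hX

end Pool.Agent.H883LP
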