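import Pool.Agent.H883LP.Stmts

set_option autoImplicit false

namespace Pool.Agent.H883LP

open Pool.Agent.H558R2 Matrix

section defs_opt

variable {m n : ℕ} (gn : (Fin m × Fin n) ⊕ (Fin m ⊕ Fin n) → Operand ((Fin m × Fin n) ⊕ (Fin m ⊕ Fin n)))

/-- operands for the entries of the combined matrix -/
def opA_opt : Row m n → Fin n ⊕ Fin m → Operand ((Fin m × Fin n) ⊕ (Fin m ⊕ Fin n))
  | .inl (.inl i), .inl j => .input (.inl (i, j))
  | .inl (.inl _), .inr _ => .zero
  | .inl (.inr _), .inl _ => .zero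
  | .inl (.inr i), .inr i' => if i = i' then .one else .zero
  | .inr (.inl (.inl _)), .inl _ => .zero
  | .inr (.inl (.inl j)), .inr i => .input (.inl (i, j))
  | .inr (.inl (.inr _)), .inl _ => .zero
  | .inr (.inl (.inr j)), .inr i => gn (.inl (i, j))
  | .inr (.inr _), .inl j => gn (.inr (.inr j))
  | .inr (.inr _), .inr i => .input (.inr (.inl i))

/-- operands for the right-hand side -/
def opB_opt : Row m n → Operand ((Fin m × Fin n) ⊕ (Fin m ⊕ Fin n))
  | .inl (.inl i) => .input (.inr (.inl i))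
  | .inl (.inr _) => .zero
  | .inr (.inl (.inl j)) => .input (.inr (.inr j))
  | .inr (.inl (.inr j)) => gn (.inr (.inr j))
  | .inr (.inr _) => .zero

def opG_opt : (Fin (m + m + (n + n + 1)) × Fin (n + m)) ⊕ Fin (m + m + (n + n + 1)) →
    Operand ((Fin m × Fin n) ⊕ (Fin m ⊕ Fin n))
  | .inl p => opA_opt gn ((rowEquiv m n).symm p.1) (finSumFinEquiv.symm p.2)
  | .inr r => opB_opt gn ((rowEquiv m n).symm r)

theorem opA_value_opt (A : Fin m → Fin n → ℝ) (b : Fin m → ℝ) (c : Fin n → ℝ) (res : List ℝ)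
    (h : ∀ k, (gn k).value (optInput A b c) res = some (- optInput A b c k))
    (r : Row m n) (v : Fin n ⊕ Fin m) :
    (opA_opt gn r v).value (optInput A b c) res = some (cA A b c r v) := by
  rcases r with (i | i) | ((j | j) | u) <;> rcases v with j' | i'
  · rfl
  · rfl
  · rfl
  · show (if i = i' then Operand.one else Operand.zero :
      Operand ((Fin m × Fin n) ⊕ (Fin m ⊕ Fin n))).value (optInput A b c) res =
      some (if i = i' then 1 else 0)
    by_cases hi : i = i'
    · rw [if_pos hi, if_pos hi]; rfl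
    · rw [if_neg hi, if_neg hi]; rfl
  · rfl
  · rfl
  · rfl
  · exact h _
  · exact h _
  · rfl

theorem opB_value_opt (A : Fin m → Fin n → ℝ) (b : Fin m → ℝ) (c : Fin n → ℝ) (res : List ℝ)
    (h : ∀ k, (gn k).value (optInput A b c) res = some (- optInput A b c k))
    (r : Row m n) :
    (opB_opt gn r).value (optInput A b c) res = some (cB b c r) := by
  rcases r with (i | i) | ((j | j) | u)
  · rfl
  · rfl
  · rfl
  · exact h _
  · rfl

theorem opG_value_opt (A : Matrix (Fin m) (Fin n) ℝ) (b : Fin m → ℝ) (c : Fin n → ℝ) (res : List ℝ)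
    (h : ∀ k, (gn k).value (optInput A b c) res = some (- optInput A b c k))
    (k : (Fin (m + m + (n + n + 1)) × Fin (n + m)) ⊕ Fin (m + m + (n + n + 1))) :
    (opG_opt gn k).value (optInput A b c) res = some (lpInput (cAF A b c) (cBF b c) k) := by
  rcases k with p | r
  · exact opA_value_opt gn A b c res h _ _
  · exact opB_value_opt gn A b c res h _

end defs_opt

theorem cAF_cast_opt {m n : ℕ} (A : Matrix (Fin m) (Fin n) ℚ) (b : Fin m → ℚ) (c : Fin n → ℚ) :
    lpInput (cAF (fun i j => ((A i j : ℚ) : ℝ)) (fun i => ((b i : ℚ) : ℝ))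
      (fun j => ((c j : ℚ) : ℝ))) (cBF (fun i => ((b i : ℚ) : ℝ)) (fun j => ((c j : ℚ) : ℝ))) =
    lpInput (fun r v => ((cAF A b c r v : ℚ) : ℝ)) (fun r => ((cBF b c r : ℚ) : ℝ)) := by
  have h1 : ∀ (r : Row m n) (v : Fin n ⊕ Fin m), cA (fun i j => ((A i j : ℚ) : ℝ))
      (fun i => ((b i : ℚ) : ℝ)) (fun j => ((c j : ℚ) : ℝ)) r v = ((cA A b c r v : ℚ) : ℝ) := by
    intro r v
    rcases r with (i | i) | ((j | j) | u) <;> rcases v with j' | i' <;> simp [cA]
    split_ifs <;> simp
  have h2 : ∀ (r : Row m n), cB (fun i => ((b i : ℚ) : ℝ)) (fun j => ((c j : ℚ) : ℝ)) r =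
      ((cB b c r : ℚ) : ℝ) := by
    intro r
    rcases r with (i | i) | ((j | j) | u) <;> simp [cB]
  funext k
  rcases k with p | r
  · exact h1 _ _
  · exact h2 _

theorem bitLength_neg_opt (q : ℚ) : bitLength (-q) = bitLength q := by
  unfold bitLength
  rw [Rat.num_neg_eq_neg_num, Rat.den_neg_eq_den, Int.natAbs_neg]

theorem steps_bound_opt (m n s : ℕ) (hm : 1 ≤ m) (_hn : 1 ≤ n)
    (hs : s ≤ 600 * ((m + m + (n + n + 1)) + (n + m)) ^ 10) :
    s + (m * n + (m + n)) ≤ 10 ^ 9 * (m + n) ^ 10 := by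
  have h1 : ((m + m + (n + n + 1)) + (n + m)) ^ 10 ≤ (4 * (m + n)) ^ 10 :=
    Nat.pow_le_pow_left (by omega) 10
  have h2 : (4 * (m + n)) ^ 10 = 1048576 * (m + n) ^ 10 := by
    rw [mul_pow]; norm_num
  have h3 : m + n ≤ (m + n) ^ 10 := Nat.le_self_pow (by norm_num) _
  have h4 : (m + n) ^ 2 ≤ (m + n) ^ 10 := Nat.pow_le_pow_right (by omega) (by norm_num)
  have h5 : m * n ≤ (m + n) ^ 2 := by nlinarith
  have h6 : (10 : ℕ) ^ 9 = 1000000000 := by norm_num
  rw [h6]
  omega

theorem taskOpt : SearchStmt → SubstStmt → NegStmt → DualAStmt → DualBStmt → LenStmt →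
    OptStmt := by
  intro hSearch hSubst hNeg hDA hDB hLen m n hm hn
  obtain ⟨T, hT1, hT2⟩ := hSearch (m + m + (n + n + 1)) (n + m) (by omega) (by omega)
  obtain ⟨gn, hg⟩ := hNeg ((Fin m × Fin n) ⊕ (Fin m ⊕ Fin n))
  have hcard : Fintype.card ((Fin m × Fin n) ⊕ (Fin m ⊕ Fin n)) = m * n + (m + n) := by
    simp
  obtain ⟨t', ht'⟩ := hg (substT (opG_opt gn)
    (Fintype.card ((Fin m × Fin n) ⊕ (Fin m ⊕ Fin n))) T)
  have key : ∀ (A : Matrix (Fin m) (Fin n) ℝ) (b : Fin m → ℝ) (c : Fin n → ℝ),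
      ∃ res0 : List ℝ, (∀ v ∈ res0, ∃ k, v = - optInput A b c k) ∧
      t'.run (optInput A b c) [] = (T.run (lpInput (cAF A b c) (cBF b c)) []).map
        (fun r => (r.1, res0 ++ r.2.1, r.2.2 + (m * n + (m + n)))) := by
    intro A b c
    obtain ⟨res0, hlen, hres0, hval, hrun⟩ := ht' (optInput A b c)
    refine ⟨res0, hres0, ?_⟩
    have h1 := hSubst _ _ (opG_opt gn) (lpInput (cAF A b c) (cBF b c)) (optInput A b c) res0
      (fun k res => opG_value_opt gn A b c (res0 ++ res) (fun k' => hval k' res) k) T []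
    rw [List.append_nil, hlen] at h1
    rw [hrun, h1, hcard, Option.map_map]
    rfl
  refine ⟨t', ?_, ?_⟩
  · intro A b c
    obtain ⟨res0, -, hrun⟩ := key A b c
    obtain ⟨ans, nums, steps, hr, hsteps, htrue, hfalse⟩ := hT1 (cAF A b c) (cBF b c)
    rw [hr, Option.map_some] at hrun
    refine ⟨ans, res0 ++ nums, steps + (m * n + (m + n)), hrun,
      steps_bound_opt m n steps hm hn hsteps, ?_, ?_⟩
    · intro ha
      obtain ⟨z, hz, l, hl⟩ := htrue ha
      obtain ⟨h1, h2, h3, h4, h5⟩ := hDA m n A b c z hz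
      refine ⟨_, _, h1, h2, h3, h4, h5, res0 ++ l, ?_⟩
      rw [hl, List.append_assoc]
      congr 2
      rw [List.ofFn_add]
      rfl
    · intro ha
      obtain ⟨y, hy1, hy2, hy3, -⟩ := hfalse ha
      exact hDB m n A b c y hy1 hy2 hy3
  · intro A b c ans nums steps hrun v hv
    obtain ⟨hL1, hL2⟩ := hLen m n hm hn A b c
    obtain ⟨res0, hres0, hrun'⟩ := key (fun i j => ((A i j : ℚ) : ℝ)) (fun i => ((b i : ℚ) : ℝ))
      (fun j => ((c j : ℚ) : ℝ))
    rw [hrun'] at hrun
    rw [Option.map_eq_some_iff] at hrun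
    obtain ⟨⟨ans', nums', steps'⟩, hr, he⟩ := hrun
    have he2 : res0 ++ nums' = nums := congrArg (fun r : Bool × List ℝ × ℕ => r.2.1) he
    set L := optLength A b c with hL
    have hLL : L ≤ 120 * L ^ 6 := by
      have h1 : L ≤ L ^ 6 := Nat.le_self_pow (by norm_num) _
      omega
    rw [← he2, List.mem_append] at hv
    rcases hv with hv | hv
    · obtain ⟨k, hk⟩ := hres0 v hv
      rcases k with p | i | j
      · refine ⟨- A p.1 p.2, ?_, ?_⟩
        · rw [hk]
          push_cast
          rfl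
        · rw [bitLength_neg_opt]
          refine le_trans ?_ hLL
          have h1 : bitLength (A p.1 p.2) ≤ ∑ j, bitLength (A p.1 j) :=
            Finset.single_le_sum (f := fun j => bitLength (A p.1 j)) (fun _ _ => Nat.zero_le _)
              (Finset.mem_univ _)
          have h2 : ∑ j, bitLength (A p.1 j) ≤ ∑ i, ∑ j, bitLength (A i j) :=
            Finset.single_le_sum (f := fun i => ∑ j, bitLength (A i j)) (fun _ _ => Nat.zero_le _)
              (Finset.mem_univ _)
          rw [hL]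
          unfold optLength inputLength
          omega
      · refine ⟨- b i, ?_, ?_⟩
        · rw [hk]
          push_cast
          rfl
        · rw [bitLength_neg_opt]
          refine le_trans ?_ hLL
          have h1 : bitLength (b i) ≤ ∑ i, bitLength (b i) :=
            Finset.single_le_sum (f := fun i => bitLength (b i)) (fun _ _ => Nat.zero_le _)
              (Finset.mem_univ _)
          rw [hL]
          unfold optLength inputLength
          omega
      · refine ⟨- c j, ?_, ?_⟩
        · rw [hk]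
          push_cast
          rfl
        · rw [bitLength_neg_opt]
          refine le_trans ?_ hLL
          have h1 : bitLength (c j) ≤ ∑ j, bitLength (c j) :=
            Finset.single_le_sum (f := fun j => bitLength (c j)) (fun _ _ => Nat.zero_le _)
              (Finset.mem_univ _)
          rw [hL]
          unfold optLength inputLength
          omega
    · rw [cAF_cast_opt] at hr
      obtain ⟨q, hq, hqL⟩ := hT2 (cAF A b c) (cBF b c) ans' nums' steps' hr v hv
      refine ⟨q, hq, hqL.trans ?_⟩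
      calc 30 * inputLength (cAF A b c) (cBF b c) ^ 2 ≤ 30 * (2 * L ^ 3) ^ 2 := by gcongr
        _ = 120 * L ^ 6 := by ring

end Pool.Agent.H883LP
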