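import Pool.Agent.H883LP.Stmts

set_option autoImplicit false

/-!
# Quotients of two functions with the same denominator have small encoding length
-/

namespace Pool.Agent.H883LP

open Pool.Agent.H558R2 Matrix

theorem taskQuot : QuotStmt := by
  intro m n hm f g hf hg A b hg0
  set r := ratInput A b with hr
  set ℓ := inputLength A b with hℓ
  have hℓ' : ℓ = ∑ k, bitLength (r k) := inputLength_eq A b
  have hmℓ : m ≤ ℓ := by
    have h1 : ∀ i : Fin m, 1 ≤ bitLength (b i) := fun i => by unfold bitLength; omega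
    have h2 : m ≤ ∑ i, bitLength (b i) := by
      calc m = ∑ _i : Fin m, 1 := by simp
        _ ≤ ∑ i, bitLength (b i) := Finset.sum_le_sum fun i _ => h1 i
    rw [hℓ, inputLength]
    omega
  set D := ∏ k, (r k).den with hD
  have hDpos : 1 ≤ D := Finset.prod_pos fun k _ => (r k).den_pos
  have hDle : D ≤ 2 ^ ℓ := by
    calc D ≤ ∏ k, 2 ^ bitLength (r k) := by
          apply Finset.prod_le_prod'
          intro k _
          refine (le_two_pow_size _).trans (Nat.pow_le_pow_right (by omega) ?_)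
          unfold bitLength
          omega
      _ = 2 ^ ℓ := by rw [Finset.prod_pow_eq_pow_sum, hℓ']
  have hdvd : ∀ k, (r k).den ∣ D := fun k => Finset.dvd_prod_of_mem _ (Finset.mem_univ k)
  set X : Idx m n → ℤ := fun k => (r k).num * (D / (r k).den : ℕ) with hX
  have hXval : ∀ k, ((X k : ℤ) : ℝ) / D = ((r k : ℚ) : ℝ) := by
    intro k
    obtain ⟨c, hc⟩ := hdvd k
    have hdk : 0 < (r k).den := (r k).den_pos
    have hdiv : D / (r k).den = c := by
      rw [hc, Nat.mul_div_cancel_left _ hdk]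
    have hD0 : (D : ℝ) ≠ 0 := by positivity
    have hc0 : (c : ℝ) ≠ 0 := by
      intro h
      have : c = 0 := by exact_mod_cast h
      rw [this, mul_zero] at hc
      omega
    have hdk' : ((r k).den : ℝ) ≠ 0 := by positivity
    have e : ((r k : ℚ) : ℝ) = ((r k).num : ℝ) / ((r k).den : ℝ) := by
      conv_lhs => rw [← Rat.num_div_den (r k)]
      push_cast
      rfl
    rw [e]
    simp only [hX]
    rw [hdiv]
    have hDc : (D : ℝ) = (r k).den * c := by exact_mod_cast hc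
    rw [hDc]
    push_cast
    field_simp
  have hXle : ∀ k, |X k| ≤ ((4 ^ ℓ : ℕ) : ℤ) := by
    intro k
    simp only [hX]
    rw [abs_mul]
    have h1 : |(r k).num| ≤ ((2 ^ ℓ : ℕ) : ℤ) := by
      rw [← Int.natCast_natAbs]
      have h2 : bitLength (r k) ≤ ℓ := by
        rw [hℓ']
        exact Finset.single_le_sum (f := fun k => bitLength (r k)) (fun _ _ => Nat.zero_le _)
          (Finset.mem_univ k)
      have h3 : (r k).num.natAbs ≤ 2 ^ ℓ :=
        (le_two_pow_size _).trans (Nat.pow_le_pow_right (by omega) (by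
          unfold bitLength at h2; omega))
      exact_mod_cast h3
    have h2 : |((D / (r k).den : ℕ) : ℤ)| ≤ ((2 ^ ℓ : ℕ) : ℤ) := by
      rw [abs_of_nonneg (by positivity)]
      exact_mod_cast (Nat.div_le_self _ _).trans hDle
    calc |(r k).num| * |((D / (r k).den : ℕ) : ℤ)| ≤ ((2 ^ ℓ : ℕ) : ℤ) * ((2 ^ ℓ : ℕ) : ℤ) :=
          mul_le_mul h1 h2 (abs_nonneg _) (by positivity)
      _ = ((4 ^ ℓ : ℕ) : ℤ) := by
          rw [← Nat.cast_mul, ← mul_pow]
          norm_num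
  have hDH : D ≤ 4 ^ ℓ := hDle.trans (Nat.pow_le_pow_left (by omega) _)
  have hbig : big m (4 ^ ℓ) ≤ 2 ^ ((5 * ℓ + 1) * (ℓ + 1)) := by
    unfold big
    rw [pow_mul]
    have h1 : 2 * m ^ 3 * 4 ^ ℓ ≤ 2 ^ (5 * ℓ + 1) := by
      have h2 : m ^ 3 ≤ 2 ^ (3 * ℓ) := by
        rw [mul_comm, pow_mul]
        exact Nat.pow_le_pow_left (hmℓ.trans Nat.lt_two_pow_self.le) 3
      calc 2 * m ^ 3 * 4 ^ ℓ ≤ 2 * 2 ^ (3 * ℓ) * 4 ^ ℓ := by gcongr
        _ = 2 ^ (5 * ℓ + 1) := by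
            have h4 : (4 : ℕ) ^ ℓ = 2 ^ (2 * ℓ) := by rw [pow_mul]; norm_num
            rw [h4]
            ring
    calc (2 * m ^ 3 * 4 ^ ℓ) ^ (m + 1) ≤ (2 ^ (5 * ℓ + 1)) ^ (m + 1) :=
          Nat.pow_le_pow_left h1 _
      _ ≤ (2 ^ (5 * ℓ + 1)) ^ (ℓ + 1) :=
          Nat.pow_le_pow_right (Nat.pow_pos (by omega)) (by omega)
  have hin : lpInput (fun i j => ((A i j : ℚ) : ℝ)) (fun i => ((b i : ℚ) : ℝ)) =
      fun k => ((X k : ℤ) : ℝ) / D := by
    rw [lpInput_rat]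
    ext k
    exact (hXval k).symm
  rw [hin] at hg0 ⊢
  obtain ⟨Nf, hf1, hf2⟩ := hf D (4 ^ ℓ) X hDpos hDH hXle
  obtain ⟨Ng, hg1, hg2⟩ := hg D (4 ^ ℓ) X hDpos hDH hXle
  set E : ℕ := m.factorial * D ^ m with hE
  have hEpos : 0 < E := Nat.mul_pos (Nat.factorial_pos m) (Nat.pow_pos hDpos)
  have hE0 : (E : ℝ) ≠ 0 := by positivity
  set F := f fun k => ((X k : ℤ) : ℝ) / D with hF
  set G := g fun k => ((X k : ℤ) : ℝ) / D with hG
  have hNg : Ng ≠ 0 := by
    intro h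
    rw [h, Int.cast_zero] at hg1
    rcases mul_eq_zero.1 hg1 with h1 | h1
    · exact hg0 h1
    · exact hE0 h1
  have hIB : IB (F / G) Ng.natAbs (big m (4 ^ ℓ)) := by
    refine ⟨Ng.sign * Nf, ?_, ?_⟩
    · have h1 : ((Ng.natAbs : ℕ) : ℝ) = ((Ng.sign : ℤ) : ℝ) * (Ng : ℝ) := by
        have h2 : ((Ng.natAbs : ℕ) : ℤ) = Ng.sign * Ng := by
          rw [Int.natCast_natAbs, Int.sign_mul_self_eq_abs]
        calc ((Ng.natAbs : ℕ) : ℝ) = (((Ng.natAbs : ℕ) : ℤ) : ℝ) := (Int.cast_natCast _).symm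
          _ = ((Ng.sign * Ng : ℤ) : ℝ) := by rw [h2]
          _ = ((Ng.sign : ℤ) : ℝ) * (Ng : ℝ) := Int.cast_mul _ _
      rw [h1, ← hg1]
      push_cast
      rw [← hf1]
      field_simp
    · rw [abs_mul]
      have h1 : |Ng.sign| ≤ 1 := by
        rcases lt_trichotomy Ng 0 with h | h | h
        · rw [Int.sign_eq_neg_one_of_neg h]
          norm_num
        · exact absurd h hNg
        · rw [Int.sign_eq_one_of_pos h]
          norm_num
      calc |Ng.sign| * |Nf| ≤ 1 * |Nf| := mul_le_mul_of_nonneg_right h1 (abs_nonneg _)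
        _ = |Nf| := one_mul _
        _ ≤ _ := hf2
  have hNg1 : 1 ≤ Ng.natAbs := Nat.one_le_iff_ne_zero.2 (Int.natAbs_ne_zero.2 hNg)
  have hNg2 : Ng.natAbs ≤ big m (4 ^ ℓ) := by
    have h1 : ((Ng.natAbs : ℕ) : ℤ) ≤ ((big m (4 ^ ℓ) : ℕ) : ℤ) := by
      rw [Int.natCast_natAbs]
      exact hg2
    exact_mod_cast h1
  obtain ⟨q, hq1, hq2⟩ := bitLength_of_IB hIB hNg1 (hNg2.trans hbig) hbig
  refine ⟨q, hq1, hq2.trans ?_⟩
  have h1 : 1 ≤ ℓ := hm.trans hmℓ
  nlinarith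

end Pool.Agent.H883LP
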