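import Pool.Agent.H883LP.Stmts

set_option autoImplicit false

/-!
# Substitution in computation trees, and negatives of all inputs
-/

namespace Pool.Agent.H883LP

open Pool.Agent.H558R2 Matrix

lemma substOp_value_subst {κ κ' : Type} (g : κ → Operand κ') (x : κ → ℝ) (x' : κ' → ℝ)
    (res0 : List ℝ) (hg : ∀ k, ∀ res, (g k).value x' (res0 ++ res) = some (x k))
    (u : Operand κ) (res : List ℝ) :
    (substOp g res0.length u).value x' (res0 ++ res) = u.value x res := by
  cases u with
  | input k => exact hg k res
  | zero => rfl
  | one => rfl
  | result j =>
    simp only [substOp, Operand.value]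
    rw [List.getElem?_append_right (Nat.le_add_right _ _), Nat.add_sub_cancel_left]

theorem taskSubst : SubstStmt := by
  intro κ κ' g x x' res0 hg T
  induction T with
  | answer a =>
    intro res
    simp [substT, CompTree.run]
  | arith o u v t ih =>
    intro res
    simp only [substT, CompTree.run]
    rw [substOp_value_subst g x x' res0 hg u res, substOp_value_subst g x x' res0 hg v res]
    cases hu : u.value x res with
    | none => simp
    | some a =>
      cases hv : v.value x res with
      | none => simp
      | some b =>
        simp only
        by_cases hd : o = Op.div ∧ b = 0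
        · rw [if_pos hd, if_pos hd]
          simp
        · rw [if_neg hd, if_neg hd, List.append_assoc, ih]
          simp [Function.comp_def]
  | compare u v tl te tg ihl ihe ihg =>
    intro res
    simp only [substT, CompTree.run]
    rw [substOp_value_subst g x x' res0 hg u res, substOp_value_subst g x x' res0 hg v res]
    cases hu : u.value x res with
    | none => simp
    | some a =>
      cases hv : v.value x res with
      | none => simp
      | some b =>
        simp only
        rw [ihl, ihe, ihg]
        split_ifs <;> simp [Function.comp_def]

/-- Put the computation of `0 - z` for the listed inputs in front of a tree. -/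
def negT_neg {κ : Type} (t : CompTree κ) : List κ → CompTree κ
  | [] => t
  | k :: l => .arith .sub .zero (.input k) (negT_neg t l)

lemma negT_run_neg {κ : Type} (t : CompTree κ) (x : κ → ℝ) (l : List κ) :
    ∀ res : List ℝ, (negT_neg t l).run x res =
      (t.run x (res ++ l.map fun k => - x k)).map fun r => (r.1, r.2.1, r.2.2 + l.length) := by
  induction l with
  | nil =>
    intro res
    simp [negT_neg]
  | cons k l ih =>
    intro res
    simp only [negT_neg, CompTree.run, Operand.value]
    rw [if_neg (by simp), ih]
    simp [Op.eval, Function.comp_def, Nat.add_assoc]

theorem taskNeg : NegStmt := by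
  intro κ _
  refine ⟨fun k => .result (Fintype.equivFin κ k), fun t =>
    ⟨negT_neg t (List.ofFn (Fintype.equivFin κ).symm), fun x =>
      ⟨(List.ofFn (Fintype.equivFin κ).symm).map fun k => - x k, ?_, ?_, ?_, ?_⟩⟩⟩
  · simp
  · intro v hv
    obtain ⟨k, -, rfl⟩ := List.mem_map.1 hv
    exact ⟨k, rfl⟩
  · intro k res
    simp only [Operand.value]
    rw [List.getElem?_append_left (by simp)]
    simp [List.getElem?_map, List.getElem?_ofFn]
  · rw [negT_run_neg]
    simp

end Pool.Agent.H883LP
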