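import Pool.Agent.H883LP.Stmts

set_option autoImplicit false

/-!
# A query tree with outputs becomes a computation tree
-/

namespace Pool.Agent.H883LP

open Pool.Agent.H558R2

/-- Task `ToTreeStmt`. -/
theorem taskToTree : ToTreeStmt := by
  intro κ Q O P f c cl hf G Spec hleaf T
  induction T with
  | leaf o =>
    intro L hL
    obtain ⟨T', hT'⟩ := hleaf o L hL
    refine ⟨T', fun x hx => ?_⟩
    obtain ⟨ans, nums, steps, h1, h2, h3⟩ := hT' x hx
    refine ⟨ans, nums, steps, h1, h2, ?_⟩
    simpa [QTO.depth] using h3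
  | node q tn tz tp ihn ihz ihp =>
    intro L hL
    obtain ⟨L', c', hc', hr, hav⟩ := hf q L (by simp)
    have hL' := hr.all hL
    obtain ⟨Tn, hn⟩ := ihn L' hL'
    obtain ⟨Tz, hz⟩ := ihz L' hL'
    obtain ⟨Tp, hp⟩ := ihp L' hL'
    obtain ⟨u, hu⟩ := (hav (f q) rfl).operand
    obtain ⟨T', hT'⟩ := hr.tree (.compare u .zero Tn Tz Tp)
    refine ⟨T', fun x hx => ?_⟩
    have hd : (QTO.node q tn tz tp).depth = 1 + max (max tn.depth tz.depth) tp.depth := rfl
    have m1 : tn.depth ≤ max (max tn.depth tz.depth) tp.depth :=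
      (le_max_left _ _).trans (le_max_left _ _)
    have m2 : tz.depth ≤ max (max tn.depth tz.depth) tp.depth :=
      (le_max_right _ _).trans (le_max_left _ _)
    have m3 : tp.depth ≤ max (max tn.depth tz.depth) tp.depth := le_max_right _ _
    have hrun : T'.run x (L.map fun g => g x) =
        ((if f q x < 0 then Tn.run x (L'.map fun g => g x) else
          if f q x = 0 then Tz.run x (L'.map fun g => g x) else
            Tp.run x (L'.map fun g => g x)).map fun r => (r.1, r.2.1, r.2.2 + 1)).map
          fun r => (r.1, r.2.1, r.2.2 + c') := by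
      rw [hT', CompTree.run, hu]
      rfl
    have fin : ∀ (t : QTO Q O) (d : ℕ) (steps : ℕ),
        t.depth ≤ d → steps ≤ t.depth * (c + 1) + cl →
        steps + 1 + c' ≤ (1 + d) * (c + 1) + cl := by
      intro t d steps h1 h2
      have : t.depth * (c + 1) ≤ d * (c + 1) := Nat.mul_le_mul_right _ h1
      have e : (1 + d) * (c + 1) = d * (c + 1) + c + 1 := by ring
      rw [e]
      omega
    rcases lt_trichotomy (f q x) 0 with h | h | h
    · rw [QTO.eval, sign_neg h] at hx
      obtain ⟨ans, nums, steps, h1, h2, h3⟩ := hn x hx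
      refine ⟨ans, nums, steps + 1 + c', ?_, h2, ?_⟩
      · rw [hrun, if_pos h, h1, Option.map_some, Option.map_some]
      · rw [hd]; exact fin tn _ steps m1 h3
    · rw [QTO.eval, h, sign_zero] at hx
      obtain ⟨ans, nums, steps, h1, h2, h3⟩ := hz x hx
      refine ⟨ans, nums, steps + 1 + c', ?_, h2, ?_⟩
      · rw [hrun, if_neg (by rw [h]; exact lt_irrefl _), if_pos h, h1, Option.map_some,
          Option.map_some]
      · rw [hd]; exact fin tz _ steps m2 h3
    · rw [QTO.eval, sign_pos h] at hx
      obtain ⟨ans, nums, steps, h1, h2, h3⟩ := hp x hx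
      refine ⟨ans, nums, steps + 1 + c', ?_, h2, ?_⟩
      · rw [hrun, if_neg (not_lt.2 h.le), if_neg h.ne', h1, Option.map_some, Option.map_some]
      · rw [hd]; exact fin tp _ steps m3 h3

end Pool.Agent.H883LP
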