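import Pool.Agent.H883LP.Search
import Pool.Agent.H883LP.SolX
import Pool.Agent.H883LP.Dual
import Pool.Agent.H883LP.Divs
import Pool.Agent.H883LP.Len
import Pool.Agent.H883LP.TaskCert
import Pool.Agent.H883LP.TaskDf
import Pool.Agent.H883LP.TaskHalve
import Pool.Agent.H883LP.TaskNum
import Pool.Agent.H883LP.TaskOpt
import Pool.Agent.H883LP.TaskQuot
import Pool.Agent.H883LP.TaskSubst
import Pool.Agent.H883LP.ToTree
import Pool.Agent.H304R3.LP.SolY

set_option autoImplicit false

namespace Pool.Agent.H883LP

/-- The search theorem. -/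
theorem searchThm : SearchStmt :=
  search_of taskHalve taskCert taskSolX Pool.Agent.H304R3.LP.taskSolY taskToTree taskDivs
    (taskNum taskDf) taskQuot

/-- The theorem on linear programs. -/
theorem optThm : OptStmt :=
  taskOpt searchThm taskSubst taskNeg taskDualA taskDualB taskLen

end Pool.Agent.H883LP
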