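import Pool.Agent.H883LP.Stmts

set_option autoImplicit false

namespace Pool.Agent.H883LP

open Pool.Agent.H558R2 Matrix

/-- what a leaf guarantees -/
def SpecS {m n : ℕ} (x : Idx m n → ℝ) (ans : Bool) (nums : List ℝ) : Prop :=
  (ans = true → ∃ s : Fin n → ℝ, (fun i => x (Sum.inr i)) ≤
      Matrix.mulVec (fun i j => x (Sum.inl (i, j))) s ∧ ∃ l, nums = l ++ List.ofFn s) ∧
  (ans = false → ∃ y : Fin m → ℝ, 0 ≤ y ∧
      Matrix.vecMul y (fun i j => x (Sum.inl (i, j)) : Matrix (Fin m) (Fin n) ℝ) = 0 ∧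
      0 < y ⬝ᵥ (fun i => x (Sum.inr i)) ∧ ∃ l, nums = l ++ List.ofFn y) ∧
  ∀ v ∈ nums, (∃ h : Fn (Idx m n), SmallVal h ∧ v = h x) ∨
    ∃ f g : Fn (Idx m n), Uni f ∧ Uni g ∧ g x ≠ 0 ∧ v = f x / g x

lemma lpInput_self {m n : ℕ} (x : Idx m n → ℝ) :
    lpInput (fun i j => x (Sum.inl (i, j))) (fun i => x (Sum.inr i)) = x := by
  ext k
  rcases k with ⟨i, j⟩ | i <;> rfl

theorem leaf_code (hX : SolXStmt) (hY : SolYStmt) (hD : DivsStmt) (hN : NumStmt)
    (m n : ℕ) (hm : 1 ≤ m) (o : Cert m n)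
    (L : List (Fn (Idx m n))) (hL : ∀ g ∈ L, SmallVal g) :
    ∃ T' : CompTree (Idx m n), ∀ x : Idx m n → ℝ,
      Good ((fun i j => x (Sum.inl (i, j))), (fun i => x (Sum.inr i))) o →
      ∃ ans nums steps, T'.run x (L.map fun g => g x) = some (ans, nums, steps) ∧
        SpecS x ans nums ∧ steps ≤ (m + n + 1) * (m * (minorCost m + 1) + m) + (m + n) := by
  have hc : minorCost m ≤ m * (minorCost m + 1) + m := by
    have : 1 * (minorCost m + 1) ≤ m * (minorCost m + 1) := Nat.mul_le_mul_right _ hm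
    omega
  rcases o with ⟨β, _ | i⟩
  · obtain ⟨hU, hXN, hYN⟩ := hN m n hm β
    obtain ⟨T', hT'⟩ := hD (Idx m n) (SmallVal (m := m) (n := n)) n
      (m * (minorCost m + 1) + m) (numX β) (denF β) (fun c => (hXN c).2)
      ((der_Df (fun j => some (β j)) hm).mono subset_rfl hc subset_rfl) true L hL
    refine ⟨T', fun x hx => ?_⟩
    have hne : denF β x ≠ 0 := hx.1
    obtain ⟨l, steps, h1, h2, h3⟩ := hT' x hne
    refine ⟨true, _, steps, h1, ⟨fun _ => ?_, by simp, ?_⟩, h2.trans ?_⟩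
    · refine ⟨fun c => numX β c x / denF β x, ?_, l, rfl⟩
      have h := hX m n (fun i j => x (Sum.inl (i, j))) (fun i => x (Sum.inr i)) β hx
      rw [lpInput_self] at h
      exact h
    · intro v hv
      rcases List.mem_append.1 hv with hv | hv
      · exact Or.inl (h3 v hv)
      · obtain ⟨c, rfl⟩ := (List.mem_ofFn' _ _).1 hv
        exact Or.inr ⟨numX β c, denF β, (hXN c).1, hU, hne, rfl⟩
    · refine Nat.add_le_add (Nat.mul_le_mul_right _ (by omega)) (by omega)
  · obtain ⟨hU, hXN, hYN⟩ := hN m n hm β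
    obtain ⟨T', hT'⟩ := hD (Idx m n) (SmallVal (m := m) (n := n)) m
      (m * (minorCost m + 1) + m) (numY β i) (denF β)
      (fun r => (der_Df (Function.update (fun j => some (β j)) i
        (some (slackBasis m n r))) hm).mono subset_rfl hc subset_rfl)
      ((der_Df (fun j => some (β j)) hm).mono subset_rfl hc subset_rfl) false L hL
    refine ⟨T', fun x hx => ?_⟩
    have hne : denF β x ≠ 0 := hx.1
    obtain ⟨l, steps, h1, h2, h3⟩ := hT' x hne
    refine ⟨false, _, steps, h1, ⟨by simp, fun _ => ?_, ?_⟩, h2.trans ?_⟩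
    · have h := hY m n (fun i j => x (Sum.inl (i, j))) (fun i => x (Sum.inr i)) β i hx
      rw [lpInput_self] at h
      exact ⟨fun r => numY β i r x / denF β x, h.1, h.2.1, h.2.2, l, rfl⟩
    · intro v hv
      rcases List.mem_append.1 hv with hv | hv
      · exact Or.inl (h3 v hv)
      · obtain ⟨r, rfl⟩ := (List.mem_ofFn' _ _).1 hv
        exact Or.inr ⟨numY β i r, denF β, hYN i r, hU, hne, rfl⟩
    · refine Nat.add_le_add (Nat.mul_le_mul_right _ (by omega)) (by omega)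

lemma steps_bound (m n depth steps : ℕ) (hm : 1 ≤ m) (hn : 1 ≤ n)
    (hT : depth ≤ (2 * m + 2 * n + 3) * ((2 * m + 2 * n + 3) * (pexp m n + 1)))
    (hs : steps ≤ depth * (minorCost m + 1) +
      ((m + n + 1) * (m * (minorCost m + 1) + m) + (m + n))) :
    steps ≤ 600 * (m + n) ^ 10 := by
  refine hs.trans ?_
  set N := m + n with hN
  have hN2 : 2 ≤ N := by omega
  have hmN : m ≤ N := by omega
  have hs : 2 * m + 2 * n + 3 ≤ 4 * N := by omega
  have hP : pexp m n + 1 ≤ 6 * N ^ 4 := by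
    unfold pexp
    have a1 : (m + (n + n) + 1) * m + m + 3 ≤ 5 * N ^ 2 := by
      have b1 : (m + (n + n) + 1) * m ≤ (3 * N) * N := Nat.mul_le_mul (by omega) hmN
      nlinarith
    have a2 : m * n + m ≤ N ^ 2 := by
      have : m * (n + 1) ≤ N * N := Nat.mul_le_mul hmN (by omega)
      nlinarith
    have a3 := Nat.mul_le_mul a1 a2
    have a4 : 1 ≤ N ^ 4 := Nat.one_le_pow _ _ (by omega)
    calc ((m + (n + n) + 1) * m + m + 3) * (m * n + m) + 1 ≤ 5 * N ^ 2 * N ^ 2 + N ^ 4 :=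
          Nat.add_le_add a3 a4
      _ = 6 * N ^ 4 := by ring
  have hdepth : depth ≤ 96 * N ^ 6 := by
    refine hT.trans ?_
    calc (2 * m + 2 * n + 3) * ((2 * m + 2 * n + 3) * (pexp m n + 1))
        ≤ (4 * N) * ((4 * N) * (6 * N ^ 4)) :=
          Nat.mul_le_mul hs (Nat.mul_le_mul hs hP)
      _ = 96 * N ^ 6 := by ring
  have hN3 : N + 2 ≤ N ^ 3 := by
    have : 4 * N ≤ N ^ 3 := by
      calc 4 * N ≤ N ^ 2 * N := Nat.mul_le_mul_right _ (by nlinarith)
        _ = N ^ 3 := by ring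
    omega
  have hN23 : N ^ 2 ≤ N ^ 3 := Nat.pow_le_pow_right (by omega) (by omega)
  have hrc : roundCost m ≤ 4 * N ^ 3 := by
    unfold roundCost
    have c1 : m * m * (2 * m) ≤ 2 * N ^ 3 := by
      calc m * m * (2 * m) ≤ N * N * (2 * N) :=
            Nat.mul_le_mul (Nat.mul_le_mul hmN hmN) (by omega)
        _ = 2 * N ^ 3 := by ring
    have c2 : m * m ≤ N ^ 2 := by
      calc m * m ≤ N * N := Nat.mul_le_mul hmN hmN
        _ = N ^ 2 := by ring
    omega
  have hmc : minorCost m + 1 ≤ 6 * N ^ 4 := by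
    unfold minorCost
    have c1 : (m - 1) * roundCost m + roundCost m = m * roundCost m := by
      obtain ⟨m', rfl⟩ : ∃ m', m = m' + 1 := ⟨m - 1, by omega⟩
      rw [Nat.add_sub_cancel]
      ring
    have c2 : m * roundCost m ≤ 4 * N ^ 4 := by
      calc m * roundCost m ≤ N * (4 * N ^ 3) := Nat.mul_le_mul hmN hrc
        _ = 4 * N ^ 4 := by ring
    have c5 : m * m ≤ N ^ 4 := by
      calc m * m ≤ N * N := Nat.mul_le_mul hmN hmN
        _ = N ^ 2 := by ring
        _ ≤ N ^ 4 := Nat.pow_le_pow_right (by omega) (by omega)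
    have c6 : 2 ≤ N ^ 4 := by
      calc 2 ≤ N := hN2
        _ = N ^ 1 := by ring
        _ ≤ N ^ 4 := Nat.pow_le_pow_right (by omega) (by omega)
    omega
  have h1 : depth * (minorCost m + 1) ≤ 576 * N ^ 10 := by
    calc depth * (minorCost m + 1) ≤ (96 * N ^ 6) * (6 * N ^ 4) := Nat.mul_le_mul hdepth hmc
      _ = 576 * N ^ 10 := by ring
  have h2 : m * (minorCost m + 1) + m ≤ 7 * N ^ 5 := by
    have d1 : m * (minorCost m + 1) ≤ N * (6 * N ^ 4) := Nat.mul_le_mul hmN hmc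
    have d2 : N ≤ N ^ 5 := by
      calc N = N ^ 1 := by ring
        _ ≤ N ^ 5 := Nat.pow_le_pow_right (by omega) (by omega)
    have d3 : N * (6 * N ^ 4) = 6 * N ^ 5 := by ring
    omega
  have h3 : (N + 1) * (m * (minorCost m + 1) + m) ≤ (2 * N) * (7 * N ^ 5) :=
    Nat.mul_le_mul (by omega) h2
  have h4 : (2 * N) * (7 * N ^ 5) = 14 * N ^ 6 := by ring
  have h5 : N ^ 6 ≤ N ^ 10 := Nat.pow_le_pow_right (by omega) (by omega)
  have h6 : N ≤ N ^ 10 := by
    calc N = N ^ 1 := by ring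
      _ ≤ N ^ 10 := Nat.pow_le_pow_right (by omega) (by omega)
  omega

theorem search_of (hH : HalveStmt) (hC : CertStmt) (hX : SolXStmt) (hY : SolYStmt)
    (hT : ToTreeStmt) (hD : DivsStmt) (hN : NumStmt) (hQ : QuotStmt) : SearchStmt := by
  classical
  intro m n hm hn
  obtain ⟨T, hTd, hTg⟩ := hH (Fin m → Option (Fin (m + (n + n)))) (Cert m n) (Inp m n)
    (slackBasis m n, none) (pat (m := m) (n := n)) Good (2 * m + 2 * n + 3) (by omega)
    (fun σ hσ => hC m n _ (by omega) σ hσ) (pexp m n) (ncard_pat_le m n)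
  obtain ⟨T', hT'⟩ := hT (Idx m n) (Fin m → Option (Fin (m + (n + n)))) (Cert m n)
    (SmallVal (m := m) (n := n)) (fun β => Df β) (minorCost m)
    ((m + n + 1) * (m * (minorCost m + 1) + m) + (m + n)) (fun β => der_Df β hm)
    (fun x o => Good ((fun i j => x (Sum.inl (i, j))), (fun i => x (Sum.inr i))) o) SpecS
    (fun o L hL => leaf_code hX hY hD hN m n hm o L hL) T [] (by simp)
  have key : ∀ (A : Matrix (Fin m) (Fin n) ℝ) (b : Fin m → ℝ), ∃ ans nums steps,
      T'.run (lpInput A b) [] = some (ans, nums, steps) ∧ SpecS (lpInput A b) ans nums ∧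
      steps ≤ T.depth * (minorCost m + 1) +
        ((m + n + 1) * (m * (minorCost m + 1) + m) + (m + n)) := by
    intro A b
    exact hT' (lpInput A b) (hTg (A, b))
  refine ⟨T', ?_, ?_⟩
  · intro A b
    obtain ⟨ans, nums, steps, h1, ⟨h2, h3, -⟩, h4⟩ := key A b
    exact ⟨ans, nums, steps, h1, steps_bound m n T.depth steps hm hn hTd h4, h2, h3⟩
  · intro A b ans nums steps hrun v hv
    obtain ⟨ans', nums', steps', h1, ⟨-, -, h4⟩, -⟩ :=
      key (fun i j => ((A i j : ℚ) : ℝ)) (fun i => ((b i : ℚ) : ℝ))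
    have e : some (ans, nums, steps) = some (ans', nums', steps') := by
      rw [← hrun]
      exact h1
    simp only [Option.some.injEq, Prod.mk.injEq] at e
    obtain ⟨-, rfl, -⟩ := e
    rcases h4 v hv with ⟨g, hg, rfl⟩ | ⟨f, g, hf, hg, hne, rfl⟩
    · exact small_bitLength hm g hg A b
    · exact hQ m n hm f g hf hg A b hne

end Pool.Agent.H883LP
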