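import Pool.Agent.H558R2.Final

set_option autoImplicit false

/-!
# Computation trees that find a solution: definitions and statements of the steps
-/

namespace Pool.Agent.H883LP

open Pool.Agent.H558R2 Matrix

/-! ## Decision trees with outputs -/

/-- Ternary sign decision trees whose leaves carry an output. -/
inductive QTO (Q O : Type) : Type
  | leaf (o : O) : QTO Q O
  | node (q : Q) (neg zero pos : QTO Q O) : QTO Q O

namespace QTO

variable {Q O : Type}

/-- The output of the tree on a sign pattern. -/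
def eval : QTO Q O → (Q → SignType) → O
  | leaf b, _ => b
  | node q tn tz tp, σ =>
    match σ q with
    | SignType.neg => tn.eval σ
    | SignType.zero => tz.eval σ
    | SignType.pos => tp.eval σ

/-- The depth of the tree. -/
def depth : QTO Q O → ℕ
  | leaf _ => 0
  | node _ tn tz tp => 1 + max (max tn.depth tz.depth) tp.depth

end QTO

/-- Halving for relations (copy of `exists_tree` of `Halving.lean`, with `F a = ans` replaced by
`R a o`). -/
def HalveStmt : Prop := ∀ (Q O α : Type) [DecidableEq Q] [Fintype Q] (_o₀ : O)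
    (χ : α → Q → SignType) (R : α → O → Prop) (s : ℕ), 2 ≤ s →
    (∀ σ : Q → SignType, LocReal χ s σ → ∃ D : Finset Q, D.card ≤ s ∧
      ∃ o : O, ∀ a, (∀ q ∈ D, χ a q = σ q) → R a o) →
    ∀ P : ℕ, (Set.range χ).ncard ≤ 2 ^ P →
    ∃ T : QTO Q O, T.depth ≤ s * (s * (P + 1)) ∧ ∀ a, R a (T.eval (χ a))

/-! ## Certificates -/

/-- A basis, and possibly a row of the tableau that shows infeasibility. -/
abbrev Cert (m n : ℕ) : Type := (Fin m → Fin (m + (n + n))) × Option (Fin m)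

/-- The certificate is correct. -/
def Good {m n : ℕ} (a : Inp m n) : Cert m n → Prop
  | (β, none) => dd (wmat a.1 a.2) (fun j => some (β j)) ≠ 0 ∧
      ∀ j, 0 ≤ dd (wmat a.1 a.2) (Function.update (fun j => some (β j)) j none) *
        dd (wmat a.1 a.2) (fun j => some (β j))
  | (β, some i) => dd (wmat a.1 a.2) (fun j => some (β j)) ≠ 0 ∧
      dd (wmat a.1 a.2) (Function.update (fun j => some (β j)) i none) *
        dd (wmat a.1 a.2) (fun j => some (β j)) < 0 ∧
      ∀ k, 0 ≤ dd (wmat a.1 a.2) (Function.update (fun j => some (β j)) i (some k)) *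
        dd (wmat a.1 a.2) (fun j => some (β j))

/-- adaptation of `exists_cert` of `LP.lean` -/
def CertStmt : Prop := ∀ (m n s : ℕ), m + (m + (n + n)) + 3 ≤ s →
    ∀ σ : (Fin m → Option (Fin (m + (n + n)))) → SignType,
    LocReal (pat (m := m) (n := n)) s σ →
    ∃ D : Finset (Fin m → Option (Fin (m + (n + n)))), D.card ≤ s ∧
      ∃ o : Cert m n, ∀ a : Inp m n, (∀ q ∈ D, pat a q = σ q) → Good a o

/-! ## The solutions read off from the certificates -/

/-- Numerators of the solution. -/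
noncomputable def numX {m n : ℕ} (β : Fin m → Fin (m + (n + n))) (c : Fin n) : Fn (Idx m n) :=
  fun x => ∑ j, xi ((colEquiv m n).symm (β j)) c *
    Df (Function.update (fun j => some (β j)) j none) x

/-- Numerators of the Farkas certificate. -/
noncomputable def numY {m n : ℕ} (β : Fin m → Fin (m + (n + n))) (i r : Fin m) :
    Fn (Idx m n) :=
  fun x => Df (Function.update (fun j => some (β j)) i (some (slackBasis m n r))) x

/-- The common denominator. -/
noncomputable def denF {m n : ℕ} (β : Fin m → Fin (m + (n + n))) : Fn (Idx m n) :=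
  fun x => Df (fun j => some (β j)) x

/-- see `feasible_of_cert` -/
def SolXStmt : Prop := ∀ (m n : ℕ) (A : Matrix (Fin m) (Fin n) ℝ) (b : Fin m → ℝ)
    (β : Fin m → Fin (m + (n + n))), Good (A, b) (β, none) →
    b ≤ A.mulVec (fun c => numX β c (lpInput A b) / denF β (lpInput A b))

/-- see `infeasible_of_cert`: the `i`-th row of the inverse basis matrix -/
def SolYStmt : Prop := ∀ (m n : ℕ) (A : Matrix (Fin m) (Fin n) ℝ) (b : Fin m → ℝ)
    (β : Fin m → Fin (m + (n + n))) (i : Fin m), Good (A, b) (β, some i) →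
    0 ≤ (fun r => numY β i r (lpInput A b) / denF β (lpInput A b)) ∧
    Matrix.vecMul (fun r => numY β i r (lpInput A b) / denF β (lpInput A b)) A = 0 ∧
    0 < (fun r => numY β i r (lpInput A b) / denF β (lpInput A b)) ⬝ᵥ b

/-! ## Computation trees -/

/-- see `QT.toTree` in `Slp.lean` -/
def ToTreeStmt : Prop := ∀ (κ Q O : Type) (P : Fn κ → Prop) (f : Q → Fn κ) (c cl : ℕ),
    (∀ q, Der P ∅ c {f q}) →
    ∀ (G : (κ → ℝ) → O → Prop) (Spec : (κ → ℝ) → Bool → List ℝ → Prop),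
    (∀ (o : O) (L : List (Fn κ)), (∀ g ∈ L, P g) → ∃ T' : CompTree κ, ∀ x, G x o →
      ∃ ans nums steps, T'.run x (L.map fun g => g x) = some (ans, nums, steps) ∧
        Spec x ans nums ∧ steps ≤ cl) →
    ∀ (T : QTO Q O) (L : List (Fn κ)), (∀ g ∈ L, P g) → ∃ T' : CompTree κ, ∀ x,
      G x (T.eval fun q => SignType.sign (f q x)) → ∃ ans nums steps,
        T'.run x (L.map fun g => g x) = some (ans, nums, steps) ∧ Spec x ans nums ∧
        steps ≤ T.depth * (c + 1) + cl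

/-- straight-line code for `f i` and `g`, then the divisions `f i / g` in order, then stop -/
def DivsStmt : Prop := ∀ (κ : Type) (P : Fn κ → Prop) (k c : ℕ) (f : Fin k → Fn κ) (g : Fn κ),
    (∀ i, Der P ∅ c {f i}) → Der P ∅ c {g} → ∀ (ans : Bool) (L : List (Fn κ)),
    (∀ h ∈ L, P h) → ∃ T' : CompTree κ, ∀ x, g x ≠ 0 →
      ∃ l steps, T'.run x (L.map fun h => h x) =
          some (ans, l ++ List.ofFn (fun i => f i x / g x), steps) ∧
        steps ≤ (k + 1) * c + k ∧ ∀ v ∈ l, ∃ h, P h ∧ v = h x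

/-! ## Sizes -/

/-- On rational inputs with denominator `D`, the values have denominator `m! D ^ m`. -/
def Uni {m n : ℕ} (f : Fn (Idx m n)) : Prop :=
  ∀ (D H : ℕ) (X : Idx m n → ℤ), 1 ≤ D → D ≤ H → (∀ i, |X i| ≤ H) →
    IB (f (fun i => (X i : ℝ) / D)) (m.factorial * D ^ m) (big m H)

/-- the minors: explicit bound, see `der_Df` -/
def DfStmt : Prop := ∀ (m n : ℕ), 1 ≤ m → ∀ (β : Fin m → Option (Fin (m + (n + n))))
    (D H : ℕ) (X : Idx m n → ℤ), 1 ≤ D → D ≤ H → (∀ i, |X i| ≤ H) →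
    IB (Df β (fun i => (X i : ℝ) / D)) (m.factorial * D ^ m)
      (m * (m * (H * (2 * m ^ 3 * H) ^ (m - 1))))

/-- the numerators and the denominator -/
def NumStmt : Prop := ∀ (m n : ℕ), 1 ≤ m → ∀ (β : Fin m → Fin (m + (n + n))),
    Uni (denF β) ∧
    (∀ c, Uni (numX β c) ∧
      Der (SmallVal (m := m) (n := n)) ∅ (m * (minorCost m + 1) + m) {numX β c}) ∧
    (∀ i r, Uni (numY β i r))

/-- quotients of two such functions; see `small_bitLength` -/
def QuotStmt : Prop := ∀ (m n : ℕ), 1 ≤ m → ∀ f g : Fn (Idx m n), Uni f → Uni g →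
    ∀ (A : Matrix (Fin m) (Fin n) ℚ) (b : Fin m → ℚ),
    g (lpInput (fun i j => ((A i j : ℚ) : ℝ)) (fun i => ((b i : ℚ) : ℝ))) ≠ 0 →
    ∃ q : ℚ, (q : ℝ) = f (lpInput (fun i j => ((A i j : ℚ) : ℝ)) (fun i => ((b i : ℚ) : ℝ))) /
        g (lpInput (fun i j => ((A i j : ℚ) : ℝ)) (fun i => ((b i : ℚ) : ℝ))) ∧
      bitLength q ≤ 30 * inputLength A b ^ 2

/-! ## The search theorem -/

/-- A computation tree of polynomial depth finds a solution or a Farkas certificate. -/
def SearchStmt : Prop := ∀ (m n : ℕ), 1 ≤ m → 1 ≤ n →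
    ∃ T : CompTree ((Fin m × Fin n) ⊕ Fin m),
    (∀ (A : Matrix (Fin m) (Fin n) ℝ) (b : Fin m → ℝ), ∃ ans nums steps,
      T.run (lpInput A b) [] = some (ans, nums, steps) ∧ steps ≤ 600 * (m + n) ^ 10 ∧
      (ans = true → ∃ x : Fin n → ℝ, b ≤ A.mulVec x ∧ ∃ l, nums = l ++ List.ofFn x) ∧
      (ans = false → ∃ y : Fin m → ℝ, 0 ≤ y ∧ Matrix.vecMul y A = 0 ∧ 0 < y ⬝ᵥ b ∧
        ∃ l, nums = l ++ List.ofFn y)) ∧
    (∀ (A : Matrix (Fin m) (Fin n) ℚ) (b : Fin m → ℚ) (ans : Bool) (nums : List ℝ) (steps : ℕ),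
      T.run (lpInput (fun i j => ((A i j : ℚ) : ℝ)) (fun i => ((b i : ℚ) : ℝ))) [] =
        some (ans, nums, steps) →
      ∀ v ∈ nums, ∃ q : ℚ, (q : ℝ) = v ∧ bitLength q ≤ 30 * inputLength A b ^ 2)

/-! ## Linear programming -/

/-- The input of a linear program. -/
def optInput {m n : ℕ} (A : Fin m → Fin n → ℝ) (b : Fin m → ℝ) (c : Fin n → ℝ) :
    (Fin m × Fin n) ⊕ (Fin m ⊕ Fin n) → ℝ
  | .inl p => A p.1 p.2
  | .inr (.inl i) => b i
  | .inr (.inr j) => c j

/-- The encoding length of a rational linear program. -/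
def optLength {m n : ℕ} (A : Matrix (Fin m) (Fin n) ℚ) (b : Fin m → ℚ) (c : Fin n → ℚ) : ℕ :=
  inputLength A b + ∑ j, bitLength (c j)

/-- Rows of the combined system. -/
abbrev Row (m n : ℕ) : Type := (Fin m ⊕ Fin m) ⊕ ((Fin n ⊕ Fin n) ⊕ Unit)

/-- An enumeration of the rows. -/
def rowEquiv (m n : ℕ) : Row m n ≃ Fin (m + m + (n + n + 1)) :=
  (Equiv.sumCongr finSumFinEquiv
    ((Equiv.sumCongr finSumFinEquiv (Equiv.ofUnique Unit (Fin 1))).trans
      finSumFinEquiv)).trans finSumFinEquiv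

/-- The matrix of the combined system `A x ≥ b`, `y ≥ 0`, `Aᵀ y ≥ c`, `- Aᵀ y ≥ - c`,
`b y - c x ≥ 0` in the unknowns `x`, `y`. -/
def cA {R : Type*} [Ring R] {m n : ℕ} (A : Fin m → Fin n → R) (b : Fin m → R) (c : Fin n → R) :
    Row m n → Fin n ⊕ Fin m → R
  | .inl (.inl i), .inl j => A i j
  | .inl (.inl _), .inr _ => 0
  | .inl (.inr _), .inl _ => 0
  | .inl (.inr i), .inr i' => if i = i' then 1 else 0
  | .inr (.inl (.inl _)), .inl _ => 0
  | .inr (.inl (.inl j)), .inr i => A i j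
  | .inr (.inl (.inr _)), .inl _ => 0
  | .inr (.inl (.inr j)), .inr i => - A i j
  | .inr (.inr _), .inl j => - c j
  | .inr (.inr _), .inr i => b i

/-- The right-hand side of the combined system. -/
def cB {R : Type*} [Ring R] {m n : ℕ} (b : Fin m → R) (c : Fin n → R) : Row m n → R
  | .inl (.inl i) => b i
  | .inl (.inr _) => 0
  | .inr (.inl (.inl j)) => c j
  | .inr (.inl (.inr j)) => - c j
  | .inr (.inr _) => 0

/-- The combined matrix with rows and columns numbered. -/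
def cAF {R : Type*} [Ring R] {m n : ℕ} (A : Fin m → Fin n → R) (b : Fin m → R)
    (c : Fin n → R) : Matrix (Fin (m + m + (n + n + 1))) (Fin (n + m)) R :=
  fun r v => cA A b c ((rowEquiv m n).symm r) (finSumFinEquiv.symm v)

/-- The combined right-hand side with rows numbered. -/
def cBF {R : Type*} [Ring R] {m n : ℕ} (b : Fin m → R) (c : Fin n → R) :
    Fin (m + m + (n + n + 1)) → R :=
  fun r => cB b c ((rowEquiv m n).symm r)

/-- Substitution of operands; `s` results are already there. -/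
def substOp {κ κ' : Type} (g : κ → Operand κ') (s : ℕ) : Operand κ → Operand κ'
  | .input k => g k
  | .zero => .zero
  | .one => .one
  | .result j => .result (s + j)

/-- Substitution in a computation tree. -/
def substT {κ κ' : Type} (g : κ → Operand κ') (s : ℕ) : CompTree κ → CompTree κ'
  | .answer a => .answer a
  | .arith o u v t => .arith o (substOp g s u) (substOp g s v) (substT g s t)
  | .compare u v tl te tg =>
    .compare (substOp g s u) (substOp g s v) (substT g s tl) (substT g s te) (substT g s tg)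

/-- the run of a tree after substitution -/
def SubstStmt : Prop := ∀ (κ κ' : Type) (g : κ → Operand κ') (x : κ → ℝ) (x' : κ' → ℝ)
    (res0 : List ℝ), (∀ k, ∀ res, (g k).value x' (res0 ++ res) = some (x k)) →
    ∀ (T : CompTree κ) (res : List ℝ), (substT g res0.length T).run x' (res0 ++ res) =
      (T.run x res).map (fun r => (r.1, res0 ++ r.2.1, r.2.2))

/-- a list of operations that computes `0 - z` for all the inputs `z` -/
def NegStmt : Prop := ∀ (κ : Type) [Fintype κ], ∃ g : κ → Operand κ,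
    ∀ t : CompTree κ, ∃ t' : CompTree κ, ∀ x : κ → ℝ, ∃ res0 : List ℝ,
      res0.length = Fintype.card κ ∧ (∀ v ∈ res0, ∃ k, v = - x k) ∧
      (∀ k, ∀ res, (g k).value x (res0 ++ res) = some (- x k)) ∧
      t'.run x [] = (t.run x res0).map (fun r => (r.1, r.2.1, r.2.2 + Fintype.card κ))

/-- a solution of the combined system is a pair of optimal solutions -/
def DualAStmt : Prop := ∀ (m n : ℕ) (A : Matrix (Fin m) (Fin n) ℝ) (b : Fin m → ℝ)
    (c : Fin n → ℝ) (z : Fin (n + m) → ℝ), cBF b c ≤ (cAF A b c).mulVec z →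
    b ≤ A.mulVec (fun j => z (Fin.castAdd m j)) ∧ 0 ≤ (fun i => z (Fin.natAdd n i)) ∧
    Matrix.vecMul (fun i => z (Fin.natAdd n i)) A = c ∧
    c ⬝ᵥ (fun j => z (Fin.castAdd m j)) = b ⬝ᵥ (fun i => z (Fin.natAdd n i)) ∧
    ∀ x' : Fin n → ℝ, b ≤ A.mulVec x' → c ⬝ᵥ (fun j => z (Fin.castAdd m j)) ≤ c ⬝ᵥ x'

/-- a Farkas certificate for the combined system shows that there is no optimal solution -/
def DualBStmt : Prop := ∀ (m n : ℕ) (A : Matrix (Fin m) (Fin n) ℝ) (b : Fin m → ℝ)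
    (c : Fin n → ℝ) (w : Fin (m + m + (n + n + 1)) → ℝ), 0 ≤ w →
    Matrix.vecMul w (cAF A b c) = 0 → 0 < w ⬝ᵥ (cBF b c) →
    ¬ ∃ x : Fin n → ℝ, b ≤ A.mulVec x ∧ ∀ x' : Fin n → ℝ, b ≤ A.mulVec x' → c ⬝ᵥ x ≤ c ⬝ᵥ x'

/-- the encoding length of the combined system -/
def LenStmt : Prop := ∀ (m n : ℕ), 1 ≤ m → 1 ≤ n → ∀ (A : Matrix (Fin m) (Fin n) ℚ)
    (b : Fin m → ℚ) (c : Fin n → ℚ),
    inputLength (cAF A b c) (cBF b c) ≤ 2 * optLength A b c ^ 3 ∧ 1 ≤ optLength A b c

/-- **Linear programming by computation trees.** -/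
def OptStmt : Prop := ∀ (m n : ℕ), 1 ≤ m → 1 ≤ n →
    ∃ T : CompTree ((Fin m × Fin n) ⊕ (Fin m ⊕ Fin n)),
    (∀ (A : Matrix (Fin m) (Fin n) ℝ) (b : Fin m → ℝ) (c : Fin n → ℝ), ∃ ans nums steps,
      T.run (optInput A b c) [] = some (ans, nums, steps) ∧
      steps ≤ 10 ^ 9 * (m + n) ^ 10 ∧
      (ans = true → ∃ (x : Fin n → ℝ) (y : Fin m → ℝ), b ≤ A.mulVec x ∧ 0 ≤ y ∧
        Matrix.vecMul y A = c ∧ c ⬝ᵥ x = b ⬝ᵥ y ∧
        (∀ x' : Fin n → ℝ, b ≤ A.mulVec x' → c ⬝ᵥ x ≤ c ⬝ᵥ x') ∧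
        ∃ l, nums = l ++ (List.ofFn x ++ List.ofFn y)) ∧
      (ans = false → ¬ ∃ x : Fin n → ℝ, b ≤ A.mulVec x ∧
        ∀ x' : Fin n → ℝ, b ≤ A.mulVec x' → c ⬝ᵥ x ≤ c ⬝ᵥ x')) ∧
    (∀ (A : Matrix (Fin m) (Fin n) ℚ) (b : Fin m → ℚ) (c : Fin n → ℚ) (ans : Bool)
      (nums : List ℝ) (steps : ℕ),
      T.run (optInput (fun i j => ((A i j : ℚ) : ℝ)) (fun i => ((b i : ℚ) : ℝ))
        (fun j => ((c j : ℚ) : ℝ))) [] = some (ans, nums, steps) →
      ∀ v ∈ nums, ∃ q : ℚ, (q : ℝ) = v ∧ bitLength q ≤ 120 * optLength A b c ^ 6)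

end Pool.Agent.H883LP
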